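import Pool.Agent.Q111.MLoc.Defs

/-! # The lattice of local clones embeds into the lattice of local monoids -/

namespace Pool.Agent.Q111.MLoc

/-- A local clone on `X`: for every `n`, a set `carrier n` of operations of arity `n + 1` on `X`;
the projections belong to it, it is closed under composition, and it is closed for pointwise
convergence. -/
structure LocalClone (X : Type*) where
  /-- the operations of arity `n + 1` -/
  carrier : ∀ n : ℕ, Set ((Fin (n + 1) → X) → X)
  proj : ∀ (n : ℕ) (i : Fin (n + 1)), (fun x => x i) ∈ carrier n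
  comp : ∀ (n m : ℕ) (f : (Fin (n + 1) → X) → X) (g : Fin (n + 1) → (Fin (m + 1) → X) → X),
    f ∈ carrier n → (∀ i, g i ∈ carrier m) → (fun x => f fun i => g i x) ∈ carrier m
  closed : ∀ (n : ℕ) (f : (Fin (n + 1) → X) → X),
    (∀ A : Finset (Fin (n + 1) → X), ∃ g ∈ carrier n, ∀ a ∈ A, g a = f a) → f ∈ carrier n

lemma LocalClone.carrier_inj (X : Type*) : Function.Injective (LocalClone.carrier (X := X)) := by
  rintro ⟨C, _, _, _⟩ ⟨D, _, _, _⟩ h
  congr

/-- Local clones are ordered by inclusion. -/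
instance (X : Type*) : PartialOrder (LocalClone X) :=
  PartialOrder.lift LocalClone.carrier (LocalClone.carrier_inj X)

/-- `φ` is an embedding of the lattice `L` into the lattice `K`: it is injective, any two elements
`a`, `b` of `L` have a meet (greatest lower bound) and a join (least upper bound), and `φ` sends
them to the meet and the join of `φ a` and `φ b`. -/
def IsLatticeEmbedding {L K : Type*} [PartialOrder L] [PartialOrder K] (φ : L → K) : Prop :=
  Function.Injective φ ∧
    (∀ a b : L, ∃ m, IsGLB {a, b} m ∧ IsGLB {φ a, φ b} (φ m)) ∧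
    ∀ a b : L, ∃ j, IsLUB {a, b} j ∧ IsLUB {φ a, φ b} (φ j)

variable {X : Type*}

lemma le_clone {C D : LocalClone X} : C ≤ D ↔ ∀ n, C.carrier n ⊆ D.carrier n := Iff.rfl

/-! ### meets and joins of clones -/

/-- intersection of a family of local clones -/
def cInf (S : Set (LocalClone X)) : LocalClone X where
  carrier n := {f | ∀ C ∈ S, f ∈ C.carrier n}
  proj n i C _ := C.proj n i
  comp n m f g hf hg C hC := C.comp n m f g (hf C hC) fun i => hg i C hC
  closed n f h C hC := C.closed n f fun A => by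
    obtain ⟨g, hg, hA⟩ := h A
    exact ⟨g, hg C hC, hA⟩

lemma cInf_glb (S : Set (LocalClone X)) : IsGLB S (cInf S) :=
  ⟨fun _ hC _ _ hf => hf _ hC, fun _ hD n _ hf _ hC => hD hC n hf⟩

lemma clone_lub (S : Set (LocalClone X)) : ∃ E, IsLUB S E :=
  ⟨cInf (upperBounds S), ⟨fun _ hC _ _ hf _ hD => hD hC _ hf,
    fun D hD _ _ hf => hf D hD⟩⟩

/-! ### the monoid of a clone -/

/-- the disjoint union of the powers `X ^ (n + 1)` -/
abbrev Y (X : Type*) : Type _ := Σ n : ℕ, (Fin (n + 1) → X)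

/-- the monoid of a clone -/
def cm (C : LocalClone X) : Submonoid (Function.End (Y X)) where
  carrier := {Φ | ∀ n, ∃ m, ∃ F : (Fin (n + 1) → X) → (Fin (m + 1) → X),
    (∀ i, (fun x => F x i) ∈ C.carrier n) ∧ ∀ x, Φ ⟨n, x⟩ = ⟨m, F x⟩}
  mul_mem' := by
    intro Φ Ψ hΦ hΨ n
    obtain ⟨m, F, hF, hF'⟩ := hΨ n
    obtain ⟨l, G, hG, hG'⟩ := hΦ m
    refine ⟨l, fun x => G (F x), fun i => ?_, fun x => ?_⟩
    · exact C.comp m n (fun y => G y i) (fun j x => F x j) (hG i) hF
    · change Φ (Ψ ⟨n, x⟩) = _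
      rw [hF', hG']
  one_mem' := fun n => ⟨n, fun x => x, fun i => C.proj n i, fun _ => rfl⟩

lemma cm_closed [Nonempty X] (C : LocalClone X) (Φ : Function.End (Y X))
    (h : ∀ A : Finset (Y X), ∃ g ∈ cm C, ∀ a ∈ A, g a = Φ a) : Φ ∈ cm C := by
  classical
  intro n
  let x0 : Fin (n + 1) → X := fun _ => Classical.arbitrary X
  obtain ⟨m0, h1⟩ : ∃ m0, ∀ x, ∃ y : Fin (m0 + 1) → X, Φ ⟨n, x⟩ = ⟨m0, y⟩ := by
    refine ⟨(Φ ⟨n, x0⟩).1, fun x => ?_⟩
    obtain ⟨Ψ, hΨ, hA⟩ := h {⟨n, x0⟩, ⟨n, x⟩}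
    obtain ⟨m, F, -, hF⟩ := hΨ n
    have e1 := hA ⟨n, x0⟩ (by simp)
    have e2 := hA ⟨n, x⟩ (by simp)
    rw [hF] at e1 e2
    rw [← e1, ← e2]
    exact ⟨F x, rfl⟩
  choose F hF using h1
  refine ⟨m0, F, fun i => ?_, hF⟩
  apply C.closed
  intro A
  obtain ⟨Ψ, hΨ, hA⟩ := h ((insert x0 A).image fun a => (⟨n, a⟩ : Y X))
  obtain ⟨m, G, hG, hG'⟩ := hΨ n
  have e1 := hA ⟨n, x0⟩ (Finset.mem_image_of_mem _ (Finset.mem_insert_self _ _))
  rw [hG', hF] at e1
  have em : m = m0 := congrArg Sigma.fst e1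
  subst em
  refine ⟨_, hG i, fun a ha => ?_⟩
  have e2 := hA ⟨n, a⟩ (Finset.mem_image_of_mem _ (Finset.mem_insert_of_mem ha))
  rw [hG', hF] at e2
  have e3 : G a = F a := by simpa using e2
  rw [e3]

/-- the map of the embedding -/
def cmLocal [Nonempty X] (C : LocalClone X) : LocalMonoid (Y X) := ⟨cm C, cm_closed C⟩

/-- act by `F` on arity `n + 1` and trivially elsewhere -/
def J {n m : ℕ} (F : (Fin (n + 1) → X) → (Fin (m + 1) → X)) : Function.End (Y X) :=
  fun p => if h : p.1 = n then ⟨m, F (h ▸ p.2)⟩ else p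

lemma J_same {n m : ℕ} (F : (Fin (n + 1) → X) → (Fin (m + 1) → X)) (x : Fin (n + 1) → X) :
    J F ⟨n, x⟩ = ⟨m, F x⟩ := by simp [J]

lemma J_other {n m : ℕ} (F : (Fin (n + 1) → X) → (Fin (m + 1) → X)) {k : ℕ} (hk : k ≠ n)
    (x : Fin (k + 1) → X) : J F ⟨k, x⟩ = ⟨k, x⟩ := by simp [J, hk]

lemma J_mem (C : LocalClone X) {n m : ℕ} (F : (Fin (n + 1) → X) → (Fin (m + 1) → X))
    (hF : ∀ i, (fun x => F x i) ∈ C.carrier n) : J F ∈ cm C := by
  intro k
  by_cases hk : k = n
  · subst hk
    exact ⟨m, F, hF, J_same F⟩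
  · exact ⟨k, fun x => x, fun i => C.proj k i, J_other F hk⟩

lemma cm_mono {C D : LocalClone X} (h : C ≤ D) : cm C ≤ cm D := by
  intro Φ hΦ n
  obtain ⟨m, F, hF, hF'⟩ := hΦ n
  exact ⟨m, F, fun i => h n (hF i), hF'⟩

lemma cm_reflect {C D : LocalClone X} (h : cm C ≤ cm D) : C ≤ D := by
  intro n f hf
  have h1 : J (fun x => fun _ : Fin 1 => f x) ∈ cm D := h (J_mem C (m := 0) _ fun _ => hf)
  obtain ⟨m, F, hF, hF'⟩ := h1 n
  by_cases hX : Nonempty X
  · obtain ⟨x0⟩ := hX
    have e := hF' (fun _ => x0)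
    rw [J_same] at e
    have em : 0 = m := congrArg Sigma.fst e
    subst em
    have : f = fun x => F x 0 := by
      funext x
      have e := hF' x
      rw [J_same] at e
      have e2 : (fun _ : Fin 1 => f x) = F x := by simpa using e
      rw [← e2]
    rw [this]
    exact hF 0
  · have : f = fun x => x 0 := by
      funext x
      exact absurd ⟨x 0⟩ hX
    rw [this]
    exact D.proj n 0

/-! ### joins -/

section Join

variable [Nonempty X] (N : LocalMonoid (Y X))

/-- `F` is realised by `N` -/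
def Re {n m : ℕ} (F : (Fin (n + 1) → X) → (Fin (m + 1) → X)) : Prop := J F ∈ N.1

/-- `N` contains all maps whose coordinates are projections -/
def HasCoord : Prop := ∀ {n m : ℕ} (τ : Fin (m + 1) → Fin (n + 1)),
  Re N (fun x : Fin (n + 1) → X => x ∘ τ)

variable {N}

omit [Nonempty X] in
lemma Re.comp (hN : HasCoord N) {n m l : ℕ} {F : (Fin (n + 1) → X) → (Fin (m + 1) → X)}
    {G : (Fin (m + 1) → X) → (Fin (l + 1) → X)} (hF : Re N F) (hG : Re N G) :
    Re N (fun x => G (F x)) := by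
  by_cases hmn : m = n
  · subst hmn
    have : J (fun x => G (F x)) = J G * J F := by
      funext p
      obtain ⟨k, x⟩ := p
      by_cases hk : k = m
      · subst hk
        rw [J_same]
        change _ = J G (J F ⟨k, x⟩)
        rw [J_same, J_same]
      · rw [J_other _ hk]
        change _ = J G (J F ⟨k, x⟩)
        rw [J_other _ hk, J_other _ hk]
    rw [Re, this]
    exact N.1.mul_mem hG hF
  · apply N.2
    intro A
    obtain ⟨K, hKA, hKm, hKn, hKl⟩ : ∃ K : ℕ, (∀ p ∈ A, p.1 < K) ∧ m < K ∧ n < K ∧ l < K := by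
      refine ⟨A.sup (fun p => p.1 + 1) + m + n + l + 1, fun p hp => ?_, by omega, by omega,
        by omega⟩
      have : p.1 + 1 ≤ A.sup fun p => p.1 + 1 := Finset.le_sup (f := fun p : Y X => p.1 + 1) hp
      omega
    let pad : (Fin (m + 1) → X) → (Fin (K + 1) → X) := fun x => x ∘ fun i => ⟨min i m, by omega⟩
    let unpad : (Fin (K + 1) → X) → (Fin (m + 1) → X) := fun x => x ∘ fun i => ⟨i, by omega⟩
    have hpu : ∀ x, unpad (pad x) = x := by
      intro x
      funext i
      have : (⟨min i m, by omega⟩ : Fin (m + 1)) = i := Fin.ext (by simp; omega)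
      simp only [pad, unpad, Function.comp]
      rw [this]
    refine ⟨J unpad * (J G * (J F * J pad)), N.1.mul_mem (hN _) (N.1.mul_mem hG
      (N.1.mul_mem hF (hN _))), ?_⟩
    rintro ⟨k, x⟩ hp
    have hkK : k < K := hKA _ hp
    change J unpad (J G (J F (J pad ⟨k, x⟩))) = _
    by_cases hk : k = n
    · subst hk
      have e1 : J unpad ⟨l, G (F x)⟩ = ⟨l, G (F x)⟩ := J_other _ (by omega) _
      rw [J_other _ (Ne.symm hmn), J_same, J_same, e1, J_same]
    · by_cases hk' : k = m
      · subst hk'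
        have e1 : J F ⟨K, pad x⟩ = ⟨K, pad x⟩ := J_other _ (by omega) _
        have e2 : J G ⟨K, pad x⟩ = ⟨K, pad x⟩ := J_other _ (by omega) _
        rw [J_same, e1, e2, J_same, hpu, J_other _ hk]
      · have e1 : J unpad ⟨k, x⟩ = ⟨k, x⟩ := J_other _ (by omega) _
        rw [J_other _ hk', J_other _ hk, J_other _ hk', e1, J_other _ hk]

/-- append the value of `f` at the selected coordinates -/
def App {k n : ℕ} (σ : Fin (n + 1) → Fin (k + 1)) (f : (Fin (n + 1) → X) → X)
    (x : Fin (k + 1) → X) : Fin (k + 1 + 1) → X :=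
  Fin.snoc (α := fun _ => X) x (f (x ∘ σ))

omit [Nonempty X] in
lemma App_last {k n : ℕ} (σ : Fin (n + 1) → Fin (k + 1)) (f : (Fin (n + 1) → X) → X)
    (x : Fin (k + 1) → X) : App σ f x (Fin.last _) = f (x ∘ σ) := by
  unfold App; rw [Fin.snoc_last]

omit [Nonempty X] in
lemma App_castSucc {k n : ℕ} (σ : Fin (n + 1) → Fin (k + 1)) (f : (Fin (n + 1) → X) → X)
    (x : Fin (k + 1) → X) (j : Fin (k + 1)) : App σ f x j.castSucc = x j := by
  unfold App; rw [Fin.snoc_castSucc]

open Classical in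
/-- extract the tuple of arity `k + 1` -/
noncomputable def toK (k : ℕ) (p : Y X) : Fin (k + 1) → X :=
  if hp : p.1 = k then hp ▸ p.2 else fun _ => Classical.arbitrary X

lemma toK_same (k : ℕ) (x : Fin (k + 1) → X) : toK k ⟨k, x⟩ = x := by simp [toK]

lemma Re.many (hN : HasCoord N) {m k : ℕ} (σ : Fin (m + 1) → Fin (k + 1)) (r : ℕ)
    (g : Fin r → (Fin (m + 1) → X) → X)
    (hg : ∀ i (l : ℕ) (σ : Fin (m + 1) → Fin (l + 1)), Re N (App σ (g i))) :
    ∃ (K : ℕ) (R : (Fin (k + 1) → X) → (Fin (K + 1) → X)) (α : Fin (k + 1) → Fin (K + 1))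
      (β : Fin r → Fin (K + 1)), Re N R ∧ (∀ x, R x ∘ α = x) ∧
        ∀ x i, R x (β i) = g i (x ∘ σ) := by
  induction r with
  | zero => exact ⟨k, fun x => x ∘ id, id, Fin.elim0, hN _, fun x => rfl, fun x i => i.elim0⟩
  | succ r ih =>
    obtain ⟨K, R, α, β, hR, hα, hβ⟩ := ih (fun i => g i.castSucc) fun i => hg i.castSucc
    refine ⟨K + 1, fun x => App (α ∘ σ) (g (Fin.last r)) (R x), Fin.castSucc ∘ α,
      Fin.snoc (α := fun _ => Fin (K + 1 + 1)) (fun i => (β i).castSucc) (Fin.last _),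
      hR.comp hN (hg _ _ _), fun x => ?_, fun x i => ?_⟩
    · funext j
      have := congrFun (hα x) j
      simp only [Function.comp] at this ⊢
      rw [App_castSucc, this]
    · refine Fin.lastCases ?_ (fun i => ?_) i
      · rw [Fin.snoc_last]
        change App (α ∘ σ) (g (Fin.last r)) (R x) (Fin.last _) = _
        rw [App_last, ← Function.comp_assoc, hα]
      · rw [Fin.snoc_castSucc]
        change App (α ∘ σ) (g (Fin.last r)) (R x) (Fin.castSucc (β i)) = _
        rw [App_castSucc, hβ]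

/-- the clone of all operations realised by `N` -/
def cl (N : LocalMonoid (Y X)) (hN : HasCoord N) : LocalClone X where
  carrier n := {f | ∀ (k : ℕ) (σ : Fin (n + 1) → Fin (k + 1)), Re N (App σ f)}
  proj n i k σ := by
    have : (App σ fun x : Fin (n + 1) → X => x i) = fun x => x ∘
        (Fin.snoc (α := fun _ => Fin (k + 1)) id (σ i) : Fin (k + 1 + 1) → Fin (k + 1)) := by
      funext x j
      refine Fin.lastCases ?_ (fun j => ?_) j
      · rw [App_last, Function.comp, Function.comp, Fin.snoc_last]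
      · rw [App_castSucc, Function.comp, Fin.snoc_castSucc]; rfl
    rw [this]
    exact hN _
  comp n m f g hf hg k σ := by
    obtain ⟨K, R, α, β, hR, hα, hβ⟩ := Re.many hN σ (n + 1) g fun i => hg i
    have h1 := (hR.comp hN (hf K β)).comp hN
      (hN (Fin.snoc (α := fun _ => Fin (K + 1 + 1)) (Fin.castSucc ∘ α) (Fin.last _)))
    convert h1 using 2
    funext j
    rename_i x
    refine Fin.lastCases ?_ (fun j => ?_) j
    · rw [App_last, Function.comp, Fin.snoc_last, App_last]
      congr 1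
      funext i
      exact (hβ x i).symm
    · have := congrFun (hα x) j
      rw [App_castSucc, Function.comp, Fin.snoc_castSucc, Function.comp, App_castSucc]
      exact this.symm
  closed n f h k σ := by
    classical
    apply N.2
    intro A
    obtain ⟨g, hg, hA⟩ := h (A.image fun p => toK k p ∘ σ)
    refine ⟨_, hg k σ, ?_⟩
    rintro ⟨l, x⟩ hp
    by_cases hl : l = k
    · subst hl
      have := hA (x ∘ σ) (Finset.mem_image.2 ⟨_, hp, by rw [toK_same]⟩)
      rw [J_same, J_same]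
      unfold App
      rw [this]
    · rw [J_other _ hl, J_other _ hl]

lemma Re.of_coord (hN : HasCoord N) {n m : ℕ} {F : (Fin (n + 1) → X) → (Fin (m + 1) → X)}
    (hF : ∀ i, (fun x => F x i) ∈ (cl N hN).carrier n) : Re N F := by
  obtain ⟨K, R, α, β, hR, hα, hβ⟩ := Re.many hN (id : Fin (n + 1) → Fin (n + 1)) (m + 1)
    (fun i x => F x i) fun i => hF i
  have h1 := hR.comp hN (hN β)
  convert h1 using 2
  funext i
  rename_i x
  exact (hβ x i).symm

omit [Nonempty X] in
lemma hasCoord_of (C : LocalClone X) (h : cm C ≤ N.1) : HasCoord N := fun τ =>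
  h (J_mem C _ fun i => C.proj _ (τ i))

lemma le_cl (C : LocalClone X) (hN : HasCoord N) (h : cm C ≤ N.1) : C ≤ cl N hN := by
  intro n f hf k σ
  apply h
  apply J_mem
  intro i
  refine Fin.lastCases ?_ (fun j => ?_) i
  · have : (fun x => App σ f x (Fin.last _)) = fun x => f (x ∘ σ) := by
      funext x; rw [App_last]
    rw [this]
    exact C.comp n k f (fun i x => x (σ i)) hf fun i => C.proj k (σ i)
  · have : (fun x => App σ f x (Fin.castSucc j)) = fun x => x j := by
      funext x; rw [App_castSucc]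
    rw [this]
    exact C.proj k j

/-- the parking map: arity `n + 1 < K0 + 1` goes to arity `K0 + n + 1` -/
def parkF (K0 n : ℕ) (x : Fin (n + 1) → X) : Fin (K0 + n + 1) → X :=
  x ∘ fun i => ⟨min i n, by omega⟩

def unparkF (K0 n : ℕ) (x : Fin (K0 + n + 1) → X) : Fin (n + 1) → X :=
  x ∘ fun i => ⟨i, by omega⟩

omit [Nonempty X] in
lemma unpark_park (K0 n : ℕ) (x : Fin (n + 1) → X) : unparkF K0 n (parkF K0 n x) = x := by
  funext i
  have : (⟨min i n, by omega⟩ : Fin (n + 1)) = i := Fin.ext (by simp; omega)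
  simp only [parkF, unparkF, Function.comp]
  rw [this]

def park (K0 : ℕ) : Function.End (Y X) := fun p =>
  if p.1 < K0 then ⟨K0 + p.1, parkF K0 p.1 p.2⟩ else p

omit [Nonempty X] in
lemma park_mem (C : LocalClone X) (K0 : ℕ) : park K0 ∈ cm C := by
  intro n
  by_cases hn : n < K0
  · refine ⟨K0 + n, parkF K0 n, fun i => C.proj _ _, fun x => ?_⟩
    simp [park, hn]
  · refine ⟨n, fun x => x, fun i => C.proj _ _, fun x => ?_⟩
    simp [park, hn]

lemma cm_cl_le (C : LocalClone X) (hN : HasCoord N) (h : cm C ≤ N.1) :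
    cm (cl N hN) ≤ N.1 := by
  intro Φ hΦ
  choose m F hF hF' using hΦ
  apply N.2
  intro A
  -- arities occurring in `A`
  obtain ⟨K0, hK1, hK2⟩ : ∃ K0, (∀ p ∈ A, p.1 < K0) ∧ ∀ p ∈ A, m p.1 < K0 := by
    refine ⟨(A.sup fun p => p.1 + 1) + A.sup fun p => m p.1 + 1, fun p hp => ?_, fun p hp => ?_⟩
    · have : p.1 + 1 ≤ A.sup fun p => p.1 + 1 := Finset.le_sup (f := fun p : Y X => p.1 + 1) hp
      omega
    · have : m p.1 + 1 ≤ A.sup fun p => m p.1 + 1 :=
        Finset.le_sup (f := fun p : Y X => m p.1 + 1) hp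
      omega
  have key : ∀ l : List ℕ, (∀ n ∈ l, m n < K0) → ∃ Ψ ∈ N.1,
      (∀ n ∈ l, ∀ x, Ψ ⟨K0 + n, parkF K0 n x⟩ = Φ ⟨n, x⟩) ∧
      ∀ k, (∀ n ∈ l, k ≠ K0 + n) → ∀ x, Ψ ⟨k, x⟩ = ⟨k, x⟩ := by
    intro l
    induction l with
    | nil => exact fun _ => ⟨1, N.1.one_mem, by simp, fun _ _ _ => rfl⟩
    | cons n l ih =>
      intro hl
      obtain ⟨Ψ, hΨ, h1, h2⟩ := ih fun n hn => hl n (List.mem_cons_of_mem _ hn)
      have hre : Re N (fun x => F n (unparkF K0 n x)) :=
        Re.comp hN (hN _) (Re.of_coord hN (hF n))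
      refine ⟨Ψ * J (fun x => F n (unparkF K0 n x)), N.1.mul_mem hΨ hre, ?_, ?_⟩
      · intro n' hn' x
        change Ψ (J _ _) = _
        by_cases e : n' = n
        · subst e
          rw [J_same, unpark_park, h2, hF']
          intro k _
          have := hl n' (List.mem_cons_self)
          omega
        · rw [J_other _ (by omega)]
          rcases List.mem_cons.1 hn' with h | h
          · exact absurd h e
          · exact h1 n' h x
      · intro k hk x
        change Ψ (J _ _) = _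
        rw [J_other _ (hk n List.mem_cons_self), h2]
        exact fun n' hn' => hk n' (List.mem_cons_of_mem _ hn')
  obtain ⟨Ψ, hΨ, h1, -⟩ := key (A.toList.map Sigma.fst) (by
    intro n hn
    obtain ⟨p, hp, rfl⟩ := List.mem_map.1 hn
    exact hK2 p (Finset.mem_toList.1 hp))
  refine ⟨Ψ * park K0, N.1.mul_mem hΨ (h (park_mem C K0)), ?_⟩
  rintro ⟨n, x⟩ hp
  change Ψ (park K0 ⟨n, x⟩) = _
  have : park K0 ⟨n, x⟩ = (⟨K0 + n, parkF K0 n x⟩ : Y X) := by
    have := hK1 _ hp
    simp only at this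
    simp [park, this]
  rw [this]
  exact h1 n (List.mem_map.2 ⟨⟨n, x⟩, Finset.mem_toList.2 hp, rfl⟩) x

end Join

theorem clone_embeds (X : Type*) [Nonempty X] : IsLatticeEmbedding (cmLocal (X := X)) := by
  have hmono : ∀ C D : LocalClone X, C ≤ D → cmLocal C ≤ cmLocal D := fun C D h => cm_mono h
  refine ⟨?_, ?_, ?_⟩
  · intro C D h
    have h1 : cm C = cm D := congrArg Subtype.val h
    exact le_antisymm (cm_reflect h1.le) (cm_reflect h1.ge)
  · intro C D
    refine ⟨cInf {C, D}, cInf_glb _, ?_, ?_⟩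
    · rintro _ (rfl | h)
      · exact hmono _ _ ((cInf_glb _).1 (Set.mem_insert _ _))
      · rw [Set.mem_singleton_iff.1 h]
        exact hmono _ _ ((cInf_glb _).1 (Set.mem_insert_of_mem _ rfl))
    · intro M hM Φ hΦ n
      have h1 : Φ ∈ cm C := hM (Set.mem_insert _ _) hΦ
      have h2 : Φ ∈ cm D := hM (Set.mem_insert_of_mem _ rfl) hΦ
      obtain ⟨m, F, hF, hF'⟩ := h1 n
      obtain ⟨m', G, hG, hG'⟩ := h2 n
      have e := hF' (fun _ => Classical.arbitrary X)
      rw [hG'] at e
      have em : m' = m := congrArg Sigma.fst e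
      subst em
      refine ⟨m', F, fun i E hE => ?_, hF'⟩
      rcases hE with rfl | hE
      · exact hF i
      · rw [Set.mem_singleton_iff.1 hE]
        have : (fun x => F x i) = fun x => G x i := by
          funext x
          have e := hF' x
          rw [hG'] at e
          have e2 : G x = F x := by simpa using e
          rw [e2]
        rw [this]
        exact hG i
  · intro C D
    obtain ⟨E, hE⟩ := clone_lub ({C, D} : Set (LocalClone X))
    refine ⟨E, hE, ?_, ?_⟩
    · rintro _ (rfl | h)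
      · exact hmono _ _ (hE.1 (Set.mem_insert _ _))
      · rw [Set.mem_singleton_iff.1 h]
        exact hmono _ _ (hE.1 (Set.mem_insert_of_mem _ rfl))
    · intro N hN
      have h1 : cm C ≤ N.1 := hN (Set.mem_insert _ _)
      have h2 : cm D ≤ N.1 := hN (Set.mem_insert_of_mem _ rfl)
      have hc : HasCoord N := hasCoord_of C h1
      have h3 : E ≤ cl N hc := hE.2 (by
        rintro _ (rfl | h)
        · exact le_cl _ hc h1
        · rw [Set.mem_singleton_iff.1 h]
          exact le_cl _ hc h2)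
      exact (cm_mono h3).trans (cm_cl_le C hc h1)

end Pool.Agent.Q111.MLoc
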