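import Mathlib.Algebra.Group.End
import Mathlib.Algebra.Group.Subgroup.Basic
import Mathlib.GroupTheory.Perm.Basic
import Mathlib.Order.Bounds.Basic
import Mathlib.Tactic

/-! # Locally closed transformation monoids and permutation groups -/

namespace Pool.Agent.Q111.MLoc

/-- The partially ordered set (by inclusion) of locally closed transformation monoids on `X`:
submonoids `M` of `X → X` (under composition) which are closed in the topology of pointwise
convergence, i.e. contain every `f` that agrees on each finite set with some member of `M`. -/
def LocalMonoid (X : Type*) : Type _ :=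
  {M : Submonoid (Function.End X) //
    ∀ f : Function.End X, (∀ A : Finset X, ∃ g ∈ M, ∀ a ∈ A, g a = f a) → f ∈ M}

/-- The partially ordered set (by inclusion) of locally closed permutation groups on `X`:
subgroups `G` of `Sym(X)` which are closed in `Sym(X)` for the topology of pointwise
convergence, i.e. contain every permutation `f` that agrees on each finite set with some member
of `G`. -/
def LocalGroup (X : Type*) : Type _ :=
  {G : Subgroup (Equiv.Perm X) //
    ∀ f : Equiv.Perm X, (∀ A : Finset X, ∃ g ∈ G, ∀ a ∈ A, g a = f a) → f ∈ G}

instance (X : Type*) : PartialOrder (LocalMonoid X) :=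
  inferInstanceAs (PartialOrder {M : Submonoid (Function.End X) //
    ∀ f : Function.End X, (∀ A : Finset X, ∃ g ∈ M, ∀ a ∈ A, g a = f a) → f ∈ M})

instance (X : Type*) : PartialOrder (LocalGroup X) :=
  inferInstanceAs (PartialOrder {G : Subgroup (Equiv.Perm X) //
    ∀ f : Equiv.Perm X, (∀ A : Finset X, ∃ g ∈ G, ∀ a ∈ A, g a = f a) → f ∈ G})

/-- `M_{2^ω}` embeds into the lattice `L`: there are elements `b`, `t` and pairwise distinct
elements `a i` indexed by the `2^ℵ₀` many `i : ℕ → Bool`, strictly between `b` and `t`, such that
for `i ≠ j` the meet (greatest lower bound) of `a i` and `a j` is `b` and their join (least upper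
bound) is `t`. -/
def EmbedsM (L : Type*) [PartialOrder L] : Prop :=
  ∃ (b t : L) (a : (ℕ → Bool) → L), Function.Injective a ∧ (∀ i, b < a i ∧ a i < t) ∧
    ∀ i j, i ≠ j → IsGLB {a i, a j} b ∧ IsLUB {a i, a j} t

end Pool.Agent.Q111.MLoc
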