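import Pool.Agent.Q111.MLoc.Defs

/-! # A family of permutations of `ℤ` indexed by `2^ω` -/

namespace Pool.Agent.Q111.MLoc

open Equiv

/-- positions -/
def pos (n : ℕ) : ℤ := ((n : ℤ) + 2) ^ 2

lemma pos_gap {n m : ℕ} (h : n ≠ m) : (n : ℤ) + 4 ≤ |pos n - pos m| := by
  have e : pos n - pos m = ((n : ℤ) - m) * (n + m + 4) := by unfold pos; ring
  rw [e, abs_mul]
  have h1 : 1 ≤ |(n : ℤ) - m| := by
    rw [← Int.zero_add 1, Int.add_one_le_iff, abs_pos]
    omega
  have h2 : |(n : ℤ) + m + 4| = n + m + 4 := abs_of_nonneg (by positivity)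
  rw [h2]
  nlinarith [Int.natCast_nonneg n, Int.natCast_nonneg m]

lemma pos_inj {n m : ℕ} (h : pos n = pos m) : n = m := by
  by_contra hne
  have := pos_gap hne
  rw [h, sub_self, abs_zero] at this
  omega

lemma pos_four (n : ℕ) : 4 ≤ pos n := by
  unfold pos
  nlinarith [Int.natCast_nonneg n]

/-- the set of positions selected by `x` (every bit of `x` is used infinitely often) -/
def Sel (x : ℕ → Bool) : Set ℤ := {z | ∃ n : ℕ, x n.unpair.1 = true ∧ z = pos n}

lemma Sel_next {x : ℕ → Bool} {z : ℤ} (h : z ∈ Sel x) : z + 1 ∉ Sel x := by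
  rintro ⟨m, -, hm⟩
  obtain ⟨n, -, hn⟩ := h
  by_cases e : n = m
  · subst e; omega
  · have := pos_gap e
    rw [← hn, ← hm] at this
    have : |z - (z + 1)| = 1 := by rw [show z - (z + 1) = -1 by ring]; rfl
    omega

open Classical in
/-- the product of the transpositions `(z z+1)`, `z ∈ Sel x` -/
noncomputable def tf (x : ℕ → Bool) (z : ℤ) : ℤ :=
  if z ∈ Sel x then z + 1 else if z - 1 ∈ Sel x then z - 1 else z

lemma tf_inv (x : ℕ → Bool) : Function.Involutive (tf x) := by
  intro z
  unfold tf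
  by_cases h1 : z ∈ Sel x
  · have h2 := Sel_next h1
    simp only [h1, if_true, h2, if_false, add_sub_cancel_right]
  · by_cases h3 : z - 1 ∈ Sel x
    · simp only [h1, h3, if_true, if_false, sub_add_cancel]
    · simp only [h1, h3, if_false]

/-- as a permutation -/
noncomputable def t (x : ℕ → Bool) : Perm ℤ := (tf_inv x).toPerm

lemma t_apply (x : ℕ → Bool) (z : ℤ) : t x z = tf x z := rfl

lemma t_symm (x : ℕ → Bool) (z : ℤ) : (t x)⁻¹ z = tf x z := rfl

lemma tf_neg (x : ℕ → Bool) {z : ℤ} (hz : z < 4) : tf x z = z := by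
  unfold tf
  have h1 : z ∉ Sel x := by
    rintro ⟨n, -, hn⟩
    have := pos_four n; omega
  have h2 : z - 1 ∉ Sel x := by
    rintro ⟨n, -, hn⟩
    have := pos_four n; omega
  simp only [h1, h2, if_false]

/-- the shift -/
def s : Perm ℤ := Equiv.addRight 1

lemma s_apply (z : ℤ) : s z = z + 1 := rfl

lemma s_inv (z : ℤ) : s⁻¹ z = z - 1 := by
  rw [Perm.inv_eq_iff_eq, s_apply]; ring

lemma s_zpow (k z : ℤ) : (s ^ k) z = z + k := by
  induction k using Int.induction_on generalizing z with
  | zero => simp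
  | succ n ih => rw [zpow_add_one, Perm.mul_apply, s_apply, ih]; ring
  | pred n ih => rw [zpow_sub_one, Perm.mul_apply, s_inv, ih]; ring

/-- the permutations -/
noncomputable def f (x : ℕ → Bool) : Perm ℤ := (t x)⁻¹ * s * t x

lemma f_zpow (x : ℕ → Bool) (k z : ℤ) : (f x ^ k) z = tf x (tf x z + k) := by
  have h : f x ^ k = (t x)⁻¹ * s ^ k * t x := by
    have := conj_zpow (i := k) (a := (t x)⁻¹) (b := s)
    rw [inv_inv] at this
    exact this
  rw [h, Perm.mul_apply, Perm.mul_apply, s_zpow, t_symm, t_apply]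

lemma f_orbit (x : ℕ → Bool) (z : ℤ) : Function.Injective fun k : ℤ => (f x ^ k) z := by
  intro k l h
  simp only [f_zpow] at h
  have := (tf_inv x).injective h
  omega

lemma sel_near {n : ℕ} {z : ℤ} (hz : |z - pos n| ≤ n + 3) (x : ℕ → Bool) :
    z ∈ Sel x ↔ x n.unpair.1 = true ∧ z = pos n := by
  constructor
  · rintro ⟨m, hm, hz'⟩
    by_cases e : n = m
    · subst e; exact ⟨hm, hz'⟩
    · have := pos_gap e
      rw [← hz', abs_sub_comm] at this
      omega
  · rintro ⟨h1, h2⟩
    exact ⟨n, h1, h2⟩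

/-- local description of `t x` near `pos n` -/
lemma tf_near {n : ℕ} {z : ℤ} (hz : |z - pos n| ≤ n + 2) (x : ℕ → Bool) :
    tf x z = if x n.unpair.1 = true then
      (if z = pos n then z + 1 else if z = pos n + 1 then z - 1 else z) else z := by
  have h1 := sel_near (x := x) (n := n) (z := z) (by omega)
  have h2 := sel_near (x := x) (n := n) (z := z - 1) (by
    have : z - 1 - pos n = (z - pos n) - 1 := by ring
    rw [this]
    calc |z - pos n - 1| ≤ |z - pos n| + |(1 : ℤ)| := abs_sub _ _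
      _ ≤ n + 3 := by rw [abs_one]; omega)
  unfold tf
  rw [h1, h2]
  by_cases hx : x n.unpair.1 = true
  · simp only [hx, true_and, if_true]
    by_cases h3 : z = pos n
    · simp [h3]
    · by_cases h4 : z = pos n + 1
      · simp [h4]
      · have : ¬ (z - 1 = pos n) := by omega
        simp [h3, h4, this]
  · simp [hx]

lemma f_inter {x y : ℕ → Bool} (hxy : x ≠ y) {m n : ℤ} (h : f x ^ m = f y ^ n) : m = 0 := by
  by_contra hm
  have key : ∀ z, tf x (tf x z + m) = tf y (tf y z + n) := fun z => by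
    rw [← f_zpow, ← f_zpow, h]
  have hmn : m = n := by
    have := key (-|m| - |n|)
    have h1 : -|m| - |n| < 4 := by linarith [abs_nonneg m, abs_nonneg n]
    have h2 : -|m| - |n| + m < 4 := by linarith [le_abs_self m, abs_nonneg n]
    have h3 : -|m| - |n| + n < 4 := by linarith [le_abs_self n, abs_nonneg m]
    rw [tf_neg x h1, tf_neg y h1, tf_neg x h2, tf_neg y h3] at this
    linarith
  subst hmn
  -- `w = t_y t_x` commutes with the shift by `m`
  have hw : ∀ z, tf y (tf x (z + m)) = tf y (tf x z) + m := fun z => by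
    have h1 := key (tf x z)
    rw [tf_inv x z] at h1
    rw [h1, tf_inv y]
  have hw2 : ∀ (k : ℕ) z, tf y (tf x (z + k * m)) = tf y (tf x z) + k * m := by
    intro k
    induction k with
    | zero => intro z; simp
    | succ k ih =>
      intro z
      have : z + ((k + 1 : ℕ) : ℤ) * m = (z + m) + k * m := by push_cast; ring
      rw [this, ih, hw]; push_cast; ring
  have hw3 : ∀ (k : ℕ) z, tf y (tf x (z - k * m)) = tf y (tf x z) - k * m := by
    intro k z
    have := hw2 k (z - k * m)
    rw [sub_add_cancel] at this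
    rw [this]; ring
  -- hence `w` is the identity
  have hid : ∀ z, tf y (tf x z) = z := by
    intro z
    have hbig : ∃ k : ℕ, z < 4 + k * |m| := by
      refine ⟨z.toNat, ?_⟩
      have h1 : 1 ≤ |m| := Int.one_le_abs hm
      have h2 : z ≤ z.toNat := Int.self_le_toNat z
      nlinarith [Int.natCast_nonneg z.toNat]
    obtain ⟨k, hk⟩ := hbig
    rcases le_total 0 m with h0 | h0
    · rw [abs_of_nonneg h0] at hk
      have h1 := hw3 k z
      rw [tf_neg x (z := z - k * m) (by linarith), tf_neg y (z := z - k * m) (by linarith)] at h1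
      linarith
    · rw [abs_of_nonpos h0] at hk
      have h1 := hw2 k z
      rw [tf_neg x (z := z + k * m) (by linarith), tf_neg y (z := z + k * m) (by linarith)] at h1
      linarith
  apply hxy
  funext i
  have h1 := hid (pos (Nat.pair i 0))
  have h2 : tf x (pos (Nat.pair i 0)) = tf y (pos (Nat.pair i 0)) := by
    rw [← tf_inv y (tf x _), h1]
  rw [tf_near (n := Nat.pair i 0) (by simp; positivity) x,
    tf_near (n := Nat.pair i 0) (by simp; positivity) y] at h2
  simp only [Nat.unpair_pair, if_true] at h2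
  by_cases hx : x i = true <;> by_cases hy : y i = true <;> simp_all

/-! ### generation -/

/-- closedness of a permutation group -/
def Cl {X : Type*} (H : Subgroup (Perm X)) : Prop :=
  ∀ f : Perm X, (∀ A : Finset X, ∃ g ∈ H, ∀ a ∈ A, g a = f a) → f ∈ H

/-- injections are approximated by products of transpositions -/
lemma approx {X : Type*} [DecidableEq X] (H : Subgroup (Perm X)) (hH : ∀ a b, swap a b ∈ H)
    {φ : X → X} (hφ : Function.Injective φ) (A : Finset X) : ∃ g ∈ H, ∀ a ∈ A, g a = φ a := by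
  induction A using Finset.induction_on with
  | empty => exact ⟨1, H.one_mem, by simp⟩
  | insert z A hz ih =>
    obtain ⟨g, hg, hgA⟩ := ih
    refine ⟨swap (g z) (φ z) * g, H.mul_mem (hH _ _) hg, ?_⟩
    intro a ha
    rw [Perm.mul_apply]
    rcases Finset.mem_insert.1 ha with rfl | ha
    · rw [swap_apply_left]
    · have h1 : a ≠ z := fun h => hz (h ▸ ha)
      rw [swap_apply_of_ne_of_ne, hgA a ha]
      · exact fun h => h1 (g.injective h)
      · rw [hgA a ha]; exact fun h => h1 (hφ h)

lemma top_of_swaps {X : Type*} [DecidableEq X] (H : Subgroup (Perm X)) (hc : Cl H)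
    (hH : ∀ a b, swap a b ∈ H) : H = ⊤ := by
  rw [eq_top_iff]
  intro g _
  exact hc g fun A => approx H hH g.injective A

lemma swaps_of_adj (H : Subgroup (Perm ℤ)) (hH : ∀ k : ℤ, swap k (k + 1) ∈ H) (a b : ℤ) :
    swap a b ∈ H := by
  have key : ∀ (n : ℕ) (k : ℤ), swap k (k + n) ∈ H := by
    intro n
    induction n with
    | zero => intro k; rw [Nat.cast_zero, add_zero, swap_self]; exact H.one_mem
    | succ n ih =>
      intro k
      rcases Nat.eq_zero_or_pos n with rfl | hn
      · simpa using hH k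
      · have h1 := swap_mul_swap_mul_swap (x := k) (y := k + n) (z := k + n + 1)
          (by omega) (by omega)
        have h2 : k + ((n + 1 : ℕ) : ℤ) = k + n + 1 := by push_cast; ring
        rw [h2, swap_comm, ← h1]
        exact H.mul_mem (H.mul_mem (hH _) (ih k)) (hH _)
  rcases le_total a b with h | h
  · have := key (b - a).toNat a
    rwa [show a + ((b - a).toNat : ℤ) = b by omega] at this
  · have := key (a - b).toNat b
    rw [show b + ((a - b).toNat : ℤ) = a by omega] at this
    rwa [swap_comm]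

lemma conj_swap (k a b : ℤ) : s ^ k * swap a b * (s ^ k)⁻¹ = swap (a + k) (b + k) := by
  rw [Equiv.mul_swap_eq_swap_mul, mul_inv_cancel_right, s_zpow, s_zpow]

/-- a closed group containing the shift and the three-cycle `-1 → 0 → 1 → -1` is everything -/
lemma top_of_three (H : Subgroup (Perm ℤ)) (hc : Cl H) (hs : s ∈ H)
    (h3 : swap (-1 : ℤ) 0 * swap 0 1 ∈ H) : H = ⊤ := by
  have hck : ∀ k : ℤ, swap (k - 1) k * swap k (k + 1) ∈ H := by
    intro k
    have h1 : s ^ k * (swap (-1 : ℤ) 0 * swap 0 1) * (s ^ k)⁻¹ ∈ H :=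
      H.mul_mem (H.mul_mem (H.zpow_mem hs k) h3) (H.inv_mem (H.zpow_mem hs k))
    have h2 : s ^ k * (swap (-1 : ℤ) 0 * swap 0 1) * (s ^ k)⁻¹ =
        (s ^ k * swap (-1 : ℤ) 0 * (s ^ k)⁻¹) * (s ^ k * swap (0 : ℤ) 1 * (s ^ k)⁻¹) := by group
    rw [h2, conj_swap, conj_swap] at h1
    have e1 : (-1 : ℤ) + k = k - 1 := by ring
    have e2 : (1 : ℤ) + k = k + 1 := by ring
    rwa [e1, zero_add, e2] at h1
  have he : ∀ M : ℕ, swap (0 : ℤ) 1 * swap ((M : ℤ) + 1) (M + 1 + 1) ∈ H := by
    intro M
    induction M with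
    | zero => simpa using hck 1
    | succ M ih =>
      have h1 := H.mul_mem ih (hck (M + 1 + 1))
      have e : (M : ℤ) + 1 + 1 - 1 = M + 1 := by ring
      rw [e, mul_assoc, ← mul_assoc (swap ((M : ℤ) + 1) (M + 1 + 1)), swap_mul_self, one_mul] at h1
      push_cast
      exact h1
  have h01 : swap (0 : ℤ) 1 ∈ H := by
    apply hc
    intro A
    obtain ⟨M, hM⟩ : ∃ M : ℕ, ∀ a ∈ A, a < M := by
      obtain ⟨B, hB⟩ := A.bddAbove
      refine ⟨(B + 1).toNat, fun a ha => ?_⟩
      have := hB ha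
      have h2 := Int.self_le_toNat (B + 1)
      omega
    refine ⟨_, he M, fun a ha => ?_⟩
    have := hM a ha
    rw [Perm.mul_apply, swap_apply_of_ne_of_ne (a := (M : ℤ) + 1) (by omega) (by omega)]
  have hadj : ∀ k : ℤ, swap k (k + 1) ∈ H := by
    intro k
    have h1 : s ^ k * swap (0 : ℤ) 1 * (s ^ k)⁻¹ ∈ H :=
      H.mul_mem (H.mul_mem (H.zpow_mem hs k) h01) (H.inv_mem (H.zpow_mem hs k))
    rw [conj_swap, zero_add, add_comm] at h1
    exact h1
  exact top_of_swaps H hc (swaps_of_adj H hadj)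

/-- local description of `t y ∘ t x` near `pos n` when `x` and `y` differ there -/
lemma w_near {n : ℕ} {z : ℤ} (hz : |z - pos n| ≤ n + 1) {x y : ℕ → Bool}
    (h : x n.unpair.1 ≠ y n.unpair.1) :
    tf y (tf x z) = if z = pos n then z + 1 else if z = pos n + 1 then z - 1 else z := by
  have h0 := abs_le.1 hz
  have hx := tf_near (n := n) (z := z) (by omega) x
  by_cases hx1 : x n.unpair.1 = true
  · have hy1 : ¬ y n.unpair.1 = true := fun hy => h (hx1.trans hy.symm)
    simp only [hx1, if_true] at hx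
    have h2 : |tf x z - pos n| ≤ n + 2 := by
      rw [hx, abs_le]
      split_ifs <;> constructor <;> omega
    rw [tf_near h2 y, if_neg hy1, hx]
  · have hy1 : y n.unpair.1 = true := by
      cases hh : y n.unpair.1
      · rw [hh] at h
        cases hh' : x n.unpair.1
        · rw [hh'] at h; exact absurd rfl h
        · exact absurd hh' hx1
      · rfl
    rw [if_neg hx1] at hx
    rw [hx, tf_near (n := n) (z := z) (by omega) y, if_pos hy1]

theorem join_top {x y : ℕ → Bool} (hxy : x ≠ y) (H : Subgroup (Perm ℤ)) (hc : Cl H)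
    (hx : f x ∈ H) (hy : f y ∈ H) : H = ⊤ := by
  obtain ⟨i, hi⟩ : ∃ i, x i ≠ y i := Function.ne_iff.1 hxy
  -- conjugate by `t x`
  let H' : Subgroup (Perm ℤ) := H.comap (MulAut.conj (t x)⁻¹).toMonoidHom
  have hmem : ∀ g, g ∈ H' ↔ (t x)⁻¹ * g * t x ∈ H := by
    intro g
    simp [H', Subgroup.mem_comap]
  have hc' : Cl H' := by
    intro g hg
    rw [hmem]
    apply hc
    intro A
    obtain ⟨g', hg', hA⟩ := hg (A.image (t x))
    refine ⟨_, (hmem g').1 hg', fun a ha => ?_⟩
    simp only [Perm.mul_apply]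
    rw [hA _ (Finset.mem_image_of_mem _ ha)]
  have hs : s ∈ H' := (hmem s).2 hx
  have hb : t x * f y * (t x)⁻¹ ∈ H' := by
    rw [hmem]
    have : (t x)⁻¹ * (t x * f y * (t x)⁻¹) * t x = f y := by group
    rw [this]; exact hy
  have hv : s⁻¹ * (t x * f y * (t x)⁻¹) ∈ H' := H'.mul_mem (H'.inv_mem hs) hb
  have hvapp : ∀ z, (s⁻¹ * (t x * f y * (t x)⁻¹)) z = tf x (tf y (tf y (tf x z) + 1)) - 1 := by
    intro z
    rw [Perm.mul_apply, Perm.mul_apply, Perm.mul_apply, s_inv, t_symm, t_apply]
    have := f_zpow y 1 (tf x z)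
    rw [zpow_one] at this
    rw [this]
  have h3 : swap (-1 : ℤ) 0 * swap 0 1 ∈ H' := by
    apply hc'
    intro A
    obtain ⟨N, hN⟩ : ∃ N : ℕ, ∀ a ∈ A, |a| ≤ N := by
      refine ⟨A.sup fun a => a.natAbs, fun a ha => ?_⟩
      have h1 : a.natAbs ≤ A.sup fun a => a.natAbs := Finset.le_sup (f := fun a => a.natAbs) ha
      rw [Int.abs_eq_natAbs]
      exact_mod_cast h1
    set n := Nat.pair i (N + 1) with hn
    have hnN : N + 1 ≤ n := Nat.right_le_pair _ _
    have hdiff : x n.unpair.1 ≠ y n.unpair.1 := by rw [hn, Nat.unpair_pair]; exact hi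
    refine ⟨(s ^ pos n)⁻¹ * (s⁻¹ * (t x * f y * (t x)⁻¹)) * s ^ pos n,
      H'.mul_mem (H'.mul_mem (H'.inv_mem (H'.zpow_mem hs _)) hv) (H'.zpow_mem hs _), ?_⟩
    intro a ha
    have haN := abs_le.1 (hN a ha)
    have hnN' : (N : ℤ) + 1 ≤ n := by exact_mod_cast hnN
    rw [Perm.mul_apply, Perm.mul_apply, ← zpow_neg, s_zpow, s_zpow, hvapp]
    have h1 := w_near (n := n) (z := a + pos n) (by rw [abs_le]; constructor <;> omega) hdiff
    rw [h1]
    have h2 : ∀ u : ℤ, |u - pos n| ≤ n + 1 → tf x (tf y u) =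
        if u = pos n then u + 1 else if u = pos n + 1 then u - 1 else u :=
      fun u hu => w_near hu hdiff.symm
    rw [h2 _ (by rw [abs_le]; split_ifs <;> constructor <;> omega)]
    rw [Perm.mul_apply]
    by_cases h0 : a = -1
    · subst h0
      have e1 : swap (0 : ℤ) 1 (-1) = -1 := swap_apply_of_ne_of_ne (by omega) (by omega)
      rw [e1, swap_apply_left]
      split_ifs <;> omega
    by_cases h0' : a = 0
    · subst h0'
      have e1 : swap (-1 : ℤ) 0 1 = 1 := swap_apply_of_ne_of_ne (by omega) (by omega)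
      rw [swap_apply_left, e1]
      split_ifs <;> omega
    by_cases h0'' : a = 1
    · subst h0''
      rw [swap_apply_right, swap_apply_right]
      split_ifs <;> omega
    rw [swap_apply_of_ne_of_ne h0' h0'', swap_apply_of_ne_of_ne h0 h0']
    split_ifs <;> omega
  have htop := top_of_three H' hc' hs h3
  rw [eq_top_iff]
  intro g _
  have : t x * g * (t x)⁻¹ ∈ H' := by rw [htop]; trivial
  rw [hmem] at this
  have e : (t x)⁻¹ * (t x * g * (t x)⁻¹) * t x = g := by group
  rwa [e] at this

end Pool.Agent.Q111.MLoc
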