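import Pool.Agent.Q111.MLoc.Clone
import Mathlib.LinearAlgebra.Finsupp.LinearCombination
import Mathlib.Algebra.Module.ZMod

/-! # The lattice of local monoids embeds into the lattice of local groups -/

namespace Pool.Agent.Q111.MLoc

open Equiv

/-- the vector space over `𝔽₂` with basis `ℕ × List W` -/
abbrev Z (W : Type*) : Type _ := (ℕ × List W) →₀ ZMod 2

variable {W : Type*}

/-- apply `f` to all entries -/
def mp (f : Function.End W) (a : List W) : List W := a.map fun w => f w

lemma mp_mul (f g : Function.End W) (a : List W) : mp (f * g) a = mp f (mp g a) := by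
  simp only [mp, List.map_map]
  rfl

lemma mp_one (a : List W) : mp 1 a = a := List.map_id a

lemma mp_congr {f g : Function.End W} {a : List W} (h : ∀ w ∈ a, f w = g w) : mp f a = mp g a :=
  List.map_congr_left h

lemma mp_inj {f g : Function.End W} {a : List W} (h : mp f a = mp g a) : ∀ w ∈ a, f w = g w :=
  List.map_inj_left.1 h

/-- basis vectors -/
noncomputable def δ (i : ℕ) (a : List W) : Z W := Finsupp.single (i, a) 1

lemma two (z : Z W) : z + z = 0 := ZModModule.add_self z

/-- linear maps are determined by the basis vectors in the support -/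
lemma lin_agree {V : Type*} [AddCommGroup V] [Module (ZMod 2) V] {L L' : Z W →ₗ[ZMod 2] V}
    {z : Z W} (h : ∀ p ∈ z.support, L (δ p.1 p.2) = L' (δ p.1 p.2)) : L z = L' z := by
  rw [← Finsupp.sum_single z, Finsupp.sum, map_sum, map_sum]
  refine Finset.sum_congr rfl fun p hp => ?_
  have : (Finsupp.single p (z p) : Z W) = z p • δ p.1 p.2 := by
    rw [δ, Finsupp.smul_single, smul_eq_mul, mul_one]
  rw [this, map_smul, map_smul, h p hp]

lemma lin_ext {V : Type*} [AddCommGroup V] [Module (ZMod 2) V] {L L' : Z W →ₗ[ZMod 2] V}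
    (h : ∀ i a, L (δ i a) = L' (δ i a)) : L = L' :=
  LinearMap.ext fun _ => lin_agree fun p _ => h p.1 p.2

lemma lin_mem {L : Z W →ₗ[ZMod 2] Z W} {z : Z W} {r : ℕ × List W} (h : L z r ≠ 0) :
    ∃ p ∈ z.support, L (δ p.1 p.2) r ≠ 0 := by
  by_contra hc
  push Not at hc
  apply h
  let Lr : Z W →ₗ[ZMod 2] ZMod 2 := Finsupp.lapply r ∘ₗ L
  have : Lr z = (0 : Z W →ₗ[ZMod 2] ZMod 2) z := lin_agree fun p hp => hc p hp
  exact this

/-- the linear map with given values on the basis -/
noncomputable def lc (v : ℕ → List W → Z W) : Z W →ₗ[ZMod 2] Z W :=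
  Finsupp.linearCombination (ZMod 2) fun p => v p.1 p.2

lemma lc_δ (v : ℕ → List W → Z W) (i : ℕ) (a : List W) : lc v (δ i a) = v i a := by
  rw [lc, δ, Finsupp.linearCombination_single, one_smul]

/-- the elementary matrix with entry `f` at `(i, j)` -/
noncomputable def E (i j : ℕ) (f : Function.End W) : Z W →ₗ[ZMod 2] Z W :=
  lc fun k a => if k = j then δ i (mp f a) else 0

lemma E_δ (i j : ℕ) (f : Function.End W) (k : ℕ) (a : List W) :
    E i j f (δ k a) = if k = j then δ i (mp f a) else 0 := by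
  rw [E, lc_δ]

lemma E_comp (i j k l : ℕ) (f g : Function.End W) :
    E i j f ∘ₗ E k l g = if k = j then E i l (f * g) else 0 := by
  apply lin_ext
  intro m a
  rw [LinearMap.comp_apply, E_δ]
  by_cases hm : m = l
  · subst hm
    rw [if_pos rfl, E_δ]
    split_ifs
    · rw [E_δ, if_pos rfl, mp_mul]
    · rfl
  · rw [if_neg hm, map_zero]
    split_ifs
    · rw [E_δ, if_neg hm]
    · rfl

lemma E_comp_apply (i j k l : ℕ) (f g : Function.End W) (z : Z W) :
    E i j f (E k l g z) = if k = j then E i l (f * g) z else 0 := by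
  rw [← LinearMap.comp_apply, E_comp]
  split_ifs <;> rfl

/-- the elementary permutation -/
noncomputable def e (i j : ℕ) (f : Function.End W) (h : i ≠ j) : Perm (Z W) :=
  Function.Involutive.toPerm (fun z => z + E i j f z) (by
    intro z
    have h1 : E i j f (E i j f z) = 0 := by
      rw [E_comp_apply, if_neg h]
    simp only [map_add]
    rw [h1, add_zero, add_assoc, two, add_zero])

lemma e_apply (i j : ℕ) (f : Function.End W) (h : i ≠ j) (z : Z W) :
    e i j f h z = z + E i j f z := rfl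

lemma e_inv (i j : ℕ) (f : Function.End W) (h : i ≠ j) : (e i j f h)⁻¹ = e i j f h := rfl

/-- evaluation of a formal sum of monomial maps -/
noncomputable def ev (c : List (ℕ × Function.End W)) (a : List W) : Z W :=
  (c.map fun p => δ p.1 (mp p.2 a)).sum

lemma ev_nil (a : List W) : ev ([] : List (ℕ × Function.End W)) a = 0 := rfl

lemma ev_cons (p : ℕ × Function.End W) (c : List (ℕ × Function.End W)) (a : List W) :
    ev (p :: c) a = δ p.1 (mp p.2 a) + ev c a := by
  rw [ev, List.map_cons, List.sum_cons]; rfl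

lemma ev_append (c c' : List (ℕ × Function.End W)) (a : List W) :
    ev (c ++ c') a = ev c a + ev c' a := by
  rw [ev, List.map_append, List.sum_append]; rfl

lemma ev_mem {c : List (ℕ × Function.End W)} {a : List W} {q : ℕ × List W}
    (h : ev c a q ≠ 0) : ∃ p ∈ c, q = (p.1, mp p.2 a) := by
  classical
  induction c with
  | nil => exact absurd rfl h
  | cons p c ih =>
    rw [ev_cons, Finsupp.add_apply] at h
    by_cases h1 : ev c a q = 0
    · rw [h1, add_zero, δ, Finsupp.single_apply] at h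
      refine ⟨p, List.mem_cons_self, ?_⟩
      by_contra hc
      rw [if_neg fun h2 => hc h2.symm] at h
      exact h rfl
    · obtain ⟨p', hp', hq⟩ := ih h1
      exact ⟨p', List.mem_cons_of_mem _ hp', hq⟩

/-- `T` is additive and its matrix entries are sums of members of `M` -/
def Nice (M : LocalMonoid W) (T : Z W → Z W) : Prop :=
  (∀ x y, T (x + y) = T x + T y) ∧ ∀ (j : ℕ) (A : Finset W), ∃ c : List (ℕ × Function.End W),
    (∀ p ∈ c, p.2 ∈ M.1) ∧ ∀ a : List W, (∀ w ∈ a, w ∈ A) → T (δ j a) = ev c a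

/-- as a linear map -/
noncomputable def toLin (T : Z W → Z W) (h : ∀ x y, T (x + y) = T x + T y) :
    Z W →ₗ[ZMod 2] Z W :=
  (AddMonoidHom.mk' T h).toZModLinearMap 2

lemma toLin_apply (T : Z W → Z W) (h : ∀ x y, T (x + y) = T x + T y) (z : Z W) :
    toLin T h z = T z := rfl

lemma ev_det {c c' : List (ℕ × Function.End W)} {a b : List W} (hab : ∀ w ∈ b, w ∈ a)
    (h : ev c a = ev c' a) : ev c b = ev c' b := by
  classical
  let L : Z W →ₗ[ZMod 2] Z W := lc fun i u => δ i (b.map fun w => u.getD (a.idxOf w) w)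
  have key : ∀ c : List (ℕ × Function.End W), L (ev c a) = ev c b := by
    intro c
    rw [ev, map_list_sum, ev, List.map_map]
    congr 1
    refine List.map_congr_left fun p _ => ?_
    rw [Function.comp, lc_δ]
    congr 1
    refine List.map_congr_left fun w hw => ?_
    have h1 : a.idxOf w < a.length := List.idxOf_lt_length_iff.2 (hab w hw)
    have h2 : a.idxOf w < (mp p.2 a).length := by rw [mp, List.length_map]; exact h1
    rw [List.getD_eq_getElem?_getD, List.getElem?_eq_getElem h2, Option.getD_some]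
    simp only [mp, List.getElem_map, List.getElem_idxOf]
  rw [← key c, h, key c']

lemma Nice.one (M : LocalMonoid W) : Nice M (fun z => z) := by
  refine ⟨fun _ _ => rfl, fun j A => ⟨[(j, 1)], ?_, fun a _ => ?_⟩⟩
  · intro p hp
    rw [List.mem_singleton.1 hp]
    exact M.1.one_mem
  · rw [ev_cons, ev_nil, add_zero, mp_one]

lemma map_list {T : Z W → Z W} (hT : ∀ x y, T (x + y) = T x + T y) (l : List (Z W)) :
    T l.sum = (l.map T).sum := by
  have := map_list_sum (toLin T hT) l
  exact this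

lemma Nice.comp {M : LocalMonoid W} {T T' : Z W → Z W} (hT : Nice M T) (hT' : Nice M T') :
    Nice M (fun z => T' (T z)) := by
  classical
  refine ⟨fun x y => ?_, fun j A => ?_⟩
  · change T' (T (x + y)) = T' (T x) + T' (T y)
    rw [hT.1, hT'.1]
  obtain ⟨c, hc, hca⟩ := hT.2 j A
  have h1 : ∀ p : ℕ × Function.End W, ∃ c' : List (ℕ × Function.End W), (∀ q ∈ c', q.2 ∈ M.1) ∧
      ∀ a : List W, (∀ w ∈ a, w ∈ A) → T' (δ p.1 (mp p.2 a)) = ev c' (mp p.2 a) := by
    intro p
    obtain ⟨c', hc', h⟩ := hT'.2 p.1 (A.image p.2)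
    refine ⟨c', hc', fun a ha => h _ fun w hw => ?_⟩
    obtain ⟨v, hv, rfl⟩ := List.mem_map.1 hw
    exact Finset.mem_image_of_mem _ (ha v hv)
  choose c' hc' hca' using h1
  refine ⟨c.flatMap fun p => (c' p).map fun q => (q.1, q.2 * p.2), ?_, ?_⟩
  · intro r hr
    obtain ⟨p, hp, hr⟩ := List.mem_flatMap.1 hr
    obtain ⟨q, hq, rfl⟩ := List.mem_map.1 hr
    exact M.1.mul_mem (hc' p q hq) (hc p hp)
  · intro a ha
    change T' (T (δ j a)) = _
    rw [hca a ha, ev, map_list hT'.1, List.map_map]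
    have h2 : (List.map (T' ∘ fun p => δ p.1 (mp p.2 a)) c) =
        c.map fun p => ev (c' p) (mp p.2 a) :=
      List.map_congr_left fun p _ => hca' p a ha
    rw [h2]
    have h3 : ∀ (p : ℕ × Function.End W) (d : List (ℕ × Function.End W)),
        ev (d.map fun q => (q.1, q.2 * p.2)) a = ev d (mp p.2 a) := by
      intro p d
      rw [ev, ev, List.map_map]
      congr 1
      refine List.map_congr_left fun q _ => ?_
      change δ q.1 (mp (q.2 * p.2) a) = _
      rw [mp_mul]
    clear h2 hca hc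
    induction c with
    | nil => rfl
    | cons p c ih =>
      rw [List.map_cons, List.sum_cons, ih, List.flatMap_cons, ev_append, h3]

lemma Nice.mono {M N : LocalMonoid W} (h : M ≤ N) {T : Z W → Z W} (hT : Nice M T) : Nice N T := by
  refine ⟨hT.1, fun j A => ?_⟩
  obtain ⟨c, hc, hca⟩ := hT.2 j A
  exact ⟨c, fun p hp => h (hc p hp), hca⟩

lemma Nice.closed {M : LocalMonoid W} {T : Z W → Z W}
    (h : ∀ B : Finset (Z W), ∃ S, Nice M S ∧ ∀ z ∈ B, S z = T z) : Nice M T := by
  classical
  refine ⟨fun x y => ?_, fun j A => ?_⟩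
  · obtain ⟨S, hS, hST⟩ := h {x, y, x + y}
    rw [← hST x (by simp), ← hST y (by simp), ← hST (x + y) (by simp), hS.1]
  · obtain ⟨S, hS, hST⟩ := h {δ j A.toList}
    obtain ⟨c, hc, hca⟩ := hS.2 j A
    refine ⟨c, hc, fun a ha => ?_⟩
    obtain ⟨S', hS', hST'⟩ := h {δ j A.toList, δ j a}
    obtain ⟨c', hc', hca'⟩ := hS'.2 j A
    rw [← hST' (δ j a) (by simp), hca' a ha]
    refine ev_det (a := A.toList) (fun w hw => Finset.mem_toList.2 (ha w hw)) ?_
    rw [← hca' _ fun w hw => Finset.mem_toList.1 hw, ← hca _ fun w hw => Finset.mem_toList.1 hw,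
      hST' _ (by simp), hST _ (by simp)]

/-- the group of a monoid -/
def gm (M : LocalMonoid W) : Subgroup (Perm (Z W)) where
  carrier := {g | Nice M g ∧ Nice M (g⁻¹ : Perm (Z W))}
  mul_mem' := by
    rintro g h ⟨hg, hg'⟩ ⟨hh, hh'⟩
    refine ⟨hh.comp hg, ?_⟩
    rw [mul_inv_rev]
    exact hg'.comp hh'
  one_mem' := ⟨Nice.one M, Nice.one M⟩
  inv_mem' := by
    rintro g ⟨hg, hg'⟩
    exact ⟨hg', by rw [inv_inv]; exact hg⟩

lemma gm_closed (M : LocalMonoid W) (f : Perm (Z W))
    (h : ∀ A : Finset (Z W), ∃ g ∈ gm M, ∀ a ∈ A, g a = f a) : f ∈ gm M := by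
  classical
  refine ⟨Nice.closed fun B => ?_, Nice.closed fun B => ?_⟩
  · obtain ⟨g, hg, hB⟩ := h B
    exact ⟨g, hg.1, hB⟩
  · obtain ⟨g, hg, hB⟩ := h (B.image (f⁻¹ : Perm (Z W)))
    refine ⟨(g⁻¹ : Perm (Z W)), hg.2, fun z hz => ?_⟩
    rw [Perm.inv_eq_iff_eq, hB _ (Finset.mem_image_of_mem _ hz)]
    exact (f.apply_symm_apply z).symm

/-- the map of the embedding -/
def gmLocal (M : LocalMonoid W) : LocalGroup (Z W) := ⟨gm M, gm_closed M⟩

lemma e_mem {M : LocalMonoid W} {i j : ℕ} {f : Function.End W} (h : i ≠ j) (hf : f ∈ M.1) :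
    e i j f h ∈ gm M := by
  have h1 : Nice M (e i j f h) := by
    refine ⟨fun x y => ?_, fun k A => ?_⟩
    · rw [e_apply, e_apply, e_apply, map_add]
      abel
    · by_cases hk : k = j
      · refine ⟨[(k, 1), (i, f)], ?_, fun a _ => ?_⟩
        · intro p hp
          simp only [List.mem_cons, List.not_mem_nil, or_false] at hp
          rcases hp with rfl | rfl
          · exact M.1.one_mem
          · exact hf
        · rw [e_apply, E_δ, if_pos hk, ev_cons, ev_cons, ev_nil, add_zero, mp_one]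
      · refine ⟨[(k, 1)], ?_, fun a _ => ?_⟩
        · intro p hp
          rw [List.mem_singleton.1 hp]
          exact M.1.one_mem
        · rw [e_apply, E_δ, if_neg hk, ev_cons, ev_nil, mp_one]
  exact ⟨h1, by rw [e_inv]; exact h1⟩

lemma gm_mono {M N : LocalMonoid W} (h : M ≤ N) : gm M ≤ gm N :=
  fun _ hg => ⟨hg.1.mono h, hg.2.mono h⟩

lemma gm_reflect {M N : LocalMonoid W} (h : gm M ≤ gm N) : M ≤ N := by
  classical
  intro f hf
  apply N.2
  intro A
  obtain ⟨c, hc, hca⟩ := (h (e_mem (i := 0) (j := 1) zero_ne_one hf)).1.2 1 A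
  have h1 := hca A.toList fun w hw => Finset.mem_toList.1 hw
  rw [e_apply, E_δ, if_pos rfl] at h1
  have h2 : ev c A.toList (0, mp f A.toList) ≠ 0 := by
    rw [← h1, Finsupp.add_apply, δ, δ, Finsupp.single_apply, Finsupp.single_apply, if_pos rfl,
      if_neg fun h => one_ne_zero (congrArg Prod.fst h), zero_add]
    exact one_ne_zero
  obtain ⟨p, hp, hq⟩ := ev_mem h2
  refine ⟨p.2, hc p hp, fun a ha => ?_⟩
  exact (mp_inj (congrArg Prod.snd hq) a (Finset.mem_toList.2 ha)).symm

/-! ### meets -/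

/-- the intersection of two local monoids -/
def mInf (M N : LocalMonoid W) : LocalMonoid W :=
  ⟨M.1 ⊓ N.1, fun f h => ⟨M.2 f fun A => by
    obtain ⟨g, hg, hA⟩ := h A
    exact ⟨g, hg.1, hA⟩, N.2 f fun A => by
    obtain ⟨g, hg, hA⟩ := h A
    exact ⟨g, hg.2, hA⟩⟩⟩

lemma mInf_glb (M N : LocalMonoid W) : IsGLB {M, N} (mInf M N) := by
  constructor
  · rintro K (rfl | rfl)
    · exact fun f hf => hf.1
    · exact fun f hf => hf.2
  · intro K hK f hf
    exact ⟨hK (by simp) hf, hK (by simp) hf⟩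

lemma Nice.take {M : LocalMonoid W} {T : Z W → Z W} (hT : Nice M T) (j : ℕ) (a : List W) (k : ℕ)
    {i : ℕ} {b : List W} (h : T (δ j (a.take k)) (i, b) ≠ 0) :
    ∃ b', T (δ j a) (i, b') ≠ 0 ∧ b'.take k = b := by
  classical
  obtain ⟨c, hc, hca⟩ := hT.2 j a.toFinset
  let L : Z W →ₗ[ZMod 2] Z W := lc fun i u => δ i (u.take k)
  have h1 : L (T (δ j a)) = T (δ j (a.take k)) := by
    rw [hca a fun w hw => List.mem_toFinset.2 hw,
      hca (a.take k) fun w hw => List.mem_toFinset.2 (List.mem_of_mem_take hw), ev, ev,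
      map_list_sum, List.map_map]
    congr 1
    refine List.map_congr_left fun p _ => ?_
    rw [Function.comp, lc_δ, mp, mp, List.map_take]
  rw [← h1] at h
  obtain ⟨p, hp, hpr⟩ := lin_mem h
  rw [lc_δ, δ, Finsupp.single_apply] at hpr
  have h2 : (p.1, p.2.take k) = (i, b) := by
    by_contra hc
    rw [if_neg hc] at hpr
    exact hpr rfl
  obtain ⟨h3, h4⟩ := Prod.mk.inj h2
  refine ⟨p.2, ?_, h4⟩
  rw [← h3]
  exact Finsupp.mem_support_iff.1 hp

/-- initial segments of an enumeration -/
def an (ε : ℕ → W) (a0 : List W) (n : ℕ) : List W := a0 ++ (List.range n).map ε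

lemma an_take (ε : ℕ → W) (a0 : List W) {m n : ℕ} (h : m ≤ n) :
    (an ε a0 n).take (a0.length + m) = an ε a0 m := by
  rw [an, an, List.take_length_add_append, ← List.map_take, List.take_range, min_eq_left h]

lemma an_zero (ε : ℕ → W) (a0 : List W) : an ε a0 0 = a0 := by simp [an]

lemma Nice.inf_key {M N : LocalMonoid W} {T : Z W → Z W} (hM : Nice M T) (hN : Nice N T)
    (ε : ℕ → W) (hε : Function.Surjective ε) (j : ℕ) (a0 : List W) {i : ℕ} {b : List W}
    (h : T (δ j a0) (i, b) ≠ 0) : ∃ f ∈ (mInf M N).1, mp f a0 = b := by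
  classical
  -- choose a compatible sequence
  have step : ∀ n (b : List W), T (δ j (an ε a0 n)) (i, b) ≠ 0 →
      ∃ b', T (δ j (an ε a0 (n + 1))) (i, b') ≠ 0 ∧ b'.take (a0.length + n) = b := by
    intro n b hb
    rw [← an_take ε a0 (Nat.le_succ n)] at hb
    exact hM.take j _ _ hb
  choose! s hs hs' using step
  let B : ℕ → List W := fun n => Nat.rec b (fun n b => s n b) n
  have hB : ∀ n, T (δ j (an ε a0 n)) (i, B n) ≠ 0 := by
    intro n
    induction n with
    | zero => rw [an_zero]; exact h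
    | succ n ih => exact hs n (B n) ih
  have hB' : ∀ n, (B (n + 1)).take (a0.length + n) = B n := fun n => hs' n (B n) (hB n)
  have hB'' : ∀ m n, m ≤ n → (B n).take (a0.length + m) = (B m).take (a0.length + m) := by
    intro m n hmn
    induction n, hmn using Nat.le_induction with
    | base => rfl
    | succ n hmn ih =>
      rw [← ih, ← hB' n, List.take_take, min_eq_left (by omega)]
  have pick : ∀ (M : LocalMonoid W), Nice M T → ∀ n, ∃ g ∈ M.1, B n = mp g (an ε a0 n) := by
    intro M hM n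
    obtain ⟨c, hc, hca⟩ := hM.2 j (an ε a0 n).toFinset
    have h1 := hB n
    rw [hca _ fun w hw => List.mem_toFinset.2 hw] at h1
    obtain ⟨p, hp, hq⟩ := ev_mem h1
    exact ⟨p.2, hc p hp, congrArg Prod.snd hq⟩
  choose g hg hgB using pick M hM
  choose g' hg' hgB' using pick N hN
  choose ν hν using hε
  have cmp : ∀ m n, m ≤ n → ∀ w ∈ an ε a0 m, g n w = g m w := by
    intro m n hmn
    apply mp_inj
    have h1 := hB'' m n hmn
    rw [hgB n, hgB m, mp, mp, ← List.map_take, ← List.map_take, an_take ε a0 hmn,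
      an_take ε a0 le_rfl] at h1
    exact h1
  have cmp' : ∀ n, ∀ w ∈ an ε a0 n, g n w = g' n w := by
    intro n
    apply mp_inj
    rw [← hgB, ← hgB']
  have hmem : ∀ w n, ν w + 1 ≤ n → w ∈ an ε a0 n := by
    intro w n hn
    rw [an, List.mem_append]
    right
    exact List.mem_map.2 ⟨ν w, List.mem_range.2 (by omega), hν w⟩
  let f : Function.End W := fun w => g (ν w + 1) w
  have hf : ∀ w n, ν w + 1 ≤ n → g n w = f w := fun w n hn => cmp _ _ hn w (hmem w _ le_rfl)
  have hbd : ∀ A : Finset W, ∃ n, ∀ w ∈ A, ν w + 1 ≤ n := fun A =>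
    ⟨A.sup fun w => ν w + 1, fun w hw => Finset.le_sup (f := fun w => ν w + 1) hw⟩
  refine ⟨f, ⟨?_, ?_⟩, ?_⟩
  · apply M.2
    intro A
    obtain ⟨n, hn⟩ := hbd A
    exact ⟨g n, hg n, fun w hw => hf w n (hn w hw)⟩
  · apply N.2
    intro A
    obtain ⟨n, hn⟩ := hbd A
    exact ⟨g' n, hg' n, fun w hw => by rw [← cmp' n w (hmem w n (hn w hw)), hf w n (hn w hw)]⟩
  · have h1 : b = mp (g 0) a0 := by
      have := hgB 0
      rw [an_zero] at this
      exact this
    rw [h1]
    apply mp_congr
    intro w hw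
    exact cmp 0 _ (Nat.zero_le _) w (by rw [an_zero]; exact hw)

lemma Nice.inf [Countable W] [Nonempty W] {M N : LocalMonoid W} {T : Z W → Z W} (hM : Nice M T)
    (hN : Nice N T) : Nice (mInf M N) T := by
  classical
  obtain ⟨ε, hε⟩ := exists_surjective_nat W
  refine ⟨hM.1, fun j A => ?_⟩
  have h1 : ∀ q : ℕ × List W, ∃ f ∈ (mInf M N).1, T (δ j A.toList) q ≠ 0 →
      mp f A.toList = q.2 := by
    intro q
    by_cases hq : T (δ j A.toList) q ≠ 0
    · obtain ⟨f, hf, hfb⟩ := hM.inf_key hN ε hε j A.toList (i := q.1) (b := q.2) hq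
      exact ⟨f, hf, fun _ => hfb⟩
    · exact ⟨1, (mInf M N).1.one_mem, fun h => absurd h hq⟩
  choose f hf hf' using h1
  obtain ⟨cM, hcM, hcMa⟩ := hM.2 j A
  let c : List (ℕ × Function.End W) := (T (δ j A.toList)).support.toList.map fun q => (q.1, f q)
  have h2 : T (δ j A.toList) = ev c A.toList := by
    conv_lhs => rw [← Finsupp.sum_single (T (δ j A.toList)), Finsupp.sum]
    rw [ev, List.map_map, Finset.sum_map_toList]
    refine Finset.sum_congr rfl fun q hq => ?_
    have h3 : T (δ j A.toList) q ≠ 0 := Finsupp.mem_support_iff.1 hq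
    have h4 : T (δ j A.toList) q = 1 := by
      generalize T (δ j A.toList) q = t at h3
      revert h3
      revert t
      decide
    change _ = δ q.1 (mp (f q) A.toList)
    rw [hf' q h3, h4]
    rfl
  refine ⟨c, ?_, fun a ha => ?_⟩
  · intro p hp
    obtain ⟨q, _, rfl⟩ := List.mem_map.1 hp
    exact hf q
  · rw [hcMa a ha]
    refine ev_det (a := A.toList) (fun w hw => Finset.mem_toList.2 (ha w hw)) ?_
    rw [← h2, hcMa _ fun w hw => Finset.mem_toList.1 hw]

/-! ### joins -/

/-- the monoid of a group -/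
def mH (H : LocalGroup (Z W)) (h1 : ∀ i j (h : i ≠ j), e i j (1 : Function.End W) h ∈ H.1) :
    LocalMonoid W :=
  ⟨{ carrier := {f | ∀ i j (h : i ≠ j), e i j f h ∈ H.1}
     mul_mem' := by
      intro f g hf hg i k hik
      obtain ⟨j, hj⟩ : ∃ j, j ≠ i ∧ j ≠ k := by
        refine ⟨i + k + 1, ?_, ?_⟩ <;> omega
      have h2 : e i k (f * g) hik = e i j f hj.1.symm * e j k g hj.2 *
          (e i j f hj.1.symm * e j k g hj.2) := by
        ext1 z
        have a1 : ¬ j = k := hj.2
        have a2 : ¬ i = k := hik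
        have a3 : ¬ i = j := hj.1.symm
        simp only [Perm.mul_apply, e_apply, map_add, E_comp_apply, a1, a2, a3, if_false, if_true,
          map_zero, add_zero, zero_add]
        generalize E i k (f * g) z = C
        generalize E i j f z = A
        generalize E j k g z = B
        linear_combination (norm := module) - two A - two B - two C
      rw [h2]
      exact H.1.mul_mem (H.1.mul_mem (hf _ _ _) (hg _ _ _)) (H.1.mul_mem (hf _ _ _) (hg _ _ _))
     one_mem' := h1 }, by
    classical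
    intro f hf i j h
    apply H.2
    intro B
    obtain ⟨g, hg, hA⟩ := hf (B.biUnion fun z => z.support.biUnion fun p => p.2.toFinset)
    refine ⟨_, hg i j h, fun z hz => ?_⟩
    rw [e_apply, e_apply]
    congr 1
    apply lin_agree
    intro p hp
    rw [E_δ, E_δ]
    congr 2
    apply mp_congr
    intro w hw
    apply hA
    simp only [Finset.mem_biUnion, List.mem_toFinset]
    exact ⟨z, hz, p, hp, hw⟩⟩

end Pool.Agent.Q111.MLoc
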