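import Pool.Agent.Q111.MLoc.Lin

/-! # Joins, and the embeddings -/

namespace Pool.Agent.Q111.MLoc

open Equiv

variable {W : Type*}

open Classical in
/-- projection to the blocks in `D` -/
noncomputable def pr (D : Set ℕ) : Z W →ₗ[ZMod 2] Z W :=
  lc fun i u => if i ∈ D then δ i u else 0

/-- reindexing of the blocks -/
noncomputable def ρ (r : ℕ → ℕ) : Z W →ₗ[ZMod 2] Z W := lc fun i u => δ (r i) u

open Classical in
lemma pr_δ (D : Set ℕ) (i : ℕ) (u : List W) : pr D (δ i u) = if i ∈ D then δ i u else 0 := by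
  rw [pr, lc_δ]

lemma ρ_δ (r : ℕ → ℕ) (i : ℕ) (u : List W) : ρ r (δ i u) = δ (r i) u := by
  rw [ρ, lc_δ]

lemma pr_self {D : Set ℕ} {z : Z W} (h : ∀ p ∈ z.support, p.1 ∈ D) : pr D z = z := by
  have : pr D z = (LinearMap.id : Z W →ₗ[ZMod 2] Z W) z :=
    lin_agree fun p hp => by rw [pr_δ, if_pos (h p hp)]; rfl
  exact this

lemma pr_zero {D : Set ℕ} {z : Z W} (h : ∀ p ∈ z.support, p.1 ∉ D) : pr D z = 0 := by
  have : pr D z = (0 : Z W →ₗ[ZMod 2] Z W) z :=
    lin_agree fun p hp => by rw [pr_δ, if_neg (h p hp)]; rfl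
  exact this

lemma pr_ρ_self {D : Set ℕ} {r : ℕ → ℕ} (h : ∀ i, r i ∈ D) (z : Z W) : pr D (ρ r z) = ρ r z := by
  have : (pr D ∘ₗ ρ r) z = ρ r z :=
    lin_agree fun p hp => by rw [LinearMap.comp_apply, ρ_δ, pr_δ, if_pos (h _)]
  exact this

lemma pr_ρ_zero {D : Set ℕ} {r : ℕ → ℕ} (h : ∀ i, r i ∉ D) (z : Z W) : pr D (ρ r z) = 0 := by
  have : (pr D ∘ₗ ρ r) z = (0 : Z W →ₗ[ZMod 2] Z W) z :=
    lin_agree fun p hp => by rw [LinearMap.comp_apply, ρ_δ, pr_δ, if_neg (h _)]; rfl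
  exact this

lemma ρ_id (z : Z W) : ρ id z = z := by
  have : ρ id z = (LinearMap.id : Z W →ₗ[ZMod 2] Z W) z :=
    lin_agree fun p hp => by rw [ρ_δ]; rfl
  exact this

/-- linear maps `L` from the blocks in `D` to the blocks outside `D` such that `1 + L` belongs to
`H` -/
def gd (H : LocalGroup (Z W)) (D : Set ℕ) : AddSubmonoid (Z W →ₗ[ZMod 2] Z W) where
  carrier := {L | (∀ z, L (pr D z) = L z) ∧ (∀ z, pr D (L z) = 0) ∧ ∃ g ∈ H.1, ∀ z, g z = z + L z}
  zero_mem' := ⟨fun _ => rfl, fun _ => map_zero _, 1, H.1.one_mem, fun z => by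
    rw [LinearMap.zero_apply, add_zero]; rfl⟩
  add_mem' := by
    rintro L L' ⟨h1, h2, g, hg, hgL⟩ ⟨h1', h2', g', hg', hgL'⟩
    refine ⟨fun z => ?_, fun z => ?_, g * g', H.1.mul_mem hg hg', fun z => ?_⟩
    · rw [LinearMap.add_apply, LinearMap.add_apply, h1, h1']
    · rw [LinearMap.add_apply, map_add, h2, h2', add_zero]
    · have h3 : L (L' z) = 0 := by rw [← h1, h2', map_zero]
      rw [Perm.mul_apply, hgL, hgL', map_add, h3, LinearMap.add_apply]
      abel

lemma gd_E {H : LocalGroup (Z W)} {D : Set ℕ} {i j : ℕ} {f : Function.End W} (hj : j ∈ D)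
    (hi : i ∉ D) (hf : ∀ i j (h : i ≠ j), e i j f h ∈ H.1) : E i j f ∈ gd H D := by
  have hij : i ≠ j := fun h => hi (h ▸ hj)
  refine ⟨fun z => ?_, fun z => ?_, e i j f hij, hf i j hij, fun z => rfl⟩
  · have : (E i j f ∘ₗ pr D) z = E i j f z := lin_agree fun p hp => by
      rw [LinearMap.comp_apply, pr_δ, E_δ]
      split_ifs with h1 h2 h2
      · rw [E_δ, if_pos h2]
      · rw [E_δ, if_neg h2]
      · exact absurd (h2 ▸ hj) h1
      · exact map_zero _
    exact this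
  · have : (pr D ∘ₗ E i j f) z = (0 : Z W →ₗ[ZMod 2] Z W) z := lin_agree fun p hp => by
      rw [LinearMap.comp_apply, E_δ]
      split_ifs with h1
      · rw [pr_δ, if_neg hi]; rfl
      · exact map_zero _
    exact this

lemma list_apply (l : List (Z W →ₗ[ZMod 2] Z W)) (z : Z W) :
    l.sum z = (l.map fun L => L z).sum := by
  induction l with
  | nil => rfl
  | cons L l ih => rw [List.sum_cons, List.map_cons, List.sum_cons, LinearMap.add_apply, ih]

open Classical in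
lemma approx (H : LocalGroup (Z W)) (P : LocalMonoid W)
    (hP : ∀ f ∈ P.1, ∀ i j (h : i ≠ j), e i j f h ∈ H.1) (D : Set ℕ) (s r : ℕ → ℕ)
    (hs : Function.Injective s) (N : ℕ) (hD : ∀ j < N, s j ∈ D) {R : Z W → Z W} (hR : Nice P R)
    (A : Finset W) : ∃ L ∈ gd H D, ∀ z : Z W, (∀ p ∈ z.support, p.1 < N ∧ ∀ w ∈ p.2, w ∈ A) →
      L (ρ s z) = pr Dᶜ (ρ r (R z)) := by
  have h1 : ∀ j, ∃ c : List (ℕ × Function.End W),
    (∀ p ∈ c, p.2 ∈ P.1) ∧ ∀ a : List W, (∀ w ∈ a, w ∈ A) → R (δ j a) = ev c a :=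
    fun j => hR.2 j A
  choose c hc hca using h1
  let F : ℕ → ℕ × Function.End W → (Z W →ₗ[ZMod 2] Z W) := fun j p =>
    if r p.1 ∈ D then 0 else E (r p.1) (s j) p.2
  have hF : ∀ j p a, F j p (δ (s j) a) = pr Dᶜ (ρ r (δ p.1 (mp p.2 a))) := by
    intro j p a
    change (if r p.1 ∈ D then 0 else E (r p.1) (s j) p.2) (δ (s j) a) = _
    rw [ρ_δ, pr_δ]
    by_cases h : r p.1 ∈ D
    · rw [if_pos h, if_neg fun h' => h' h]; rfl
    · rw [if_neg h, if_pos (show r p.1 ∈ Dᶜ from h), E_δ, if_pos rfl]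
  have hF' : ∀ j k p a, j ≠ k → F j p (δ (s k) a) = 0 := by
    intro j k p a hjk
    change (if r p.1 ∈ D then 0 else E (r p.1) (s j) p.2) (δ (s k) a) = _
    by_cases h : r p.1 ∈ D
    · rw [if_pos h]; rfl
    · rw [if_neg h, E_δ, if_neg fun h' => hjk (hs h').symm]
  refine ⟨∑ j ∈ Finset.range N, ((c j).map (F j)).sum, ?_, ?_⟩
  · refine AddSubmonoid.sum_mem _ fun j hj => AddSubmonoid.list_sum_mem _ fun L hL => ?_
    obtain ⟨p, hp, rfl⟩ := List.mem_map.1 hL
    change (if r p.1 ∈ D then 0 else E (r p.1) (s j) p.2) ∈ gd H D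
    split_ifs with h
    · exact AddSubmonoid.zero_mem _
    · exact gd_E (hD j (Finset.mem_range.1 hj)) h (hP p.2 (hc j p hp))
  · intro z hz
    have h2 : ((∑ j ∈ Finset.range N, ((c j).map (F j)).sum) ∘ₗ ρ s) z =
        (pr Dᶜ ∘ₗ ρ r ∘ₗ toLin R hR.1) z := by
      refine lin_agree fun p hp => ?_
      obtain ⟨h3, h4⟩ := hz p hp
      rw [LinearMap.comp_apply, LinearMap.comp_apply, LinearMap.comp_apply, ρ_δ, toLin_apply,
        hca p.1 p.2 h4, LinearMap.sum_apply, Finset.sum_eq_single p.1]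
      · rw [list_apply, List.map_map, ev, map_list_sum, map_list_sum, List.map_map, List.map_map]
        congr 1
        exact List.map_congr_left fun q _ => hF p.1 q p.2
      · intro j _ hj
        rw [list_apply, List.map_map]
        apply List.sum_eq_zero
        intro x hx
        obtain ⟨q, _, rfl⟩ := List.mem_map.1 hx
        exact hF' j p.1 q p.2 hj
      · intro h
        exact absurd (Finset.mem_range.2 h3) h
    exact h2

lemma bounds (F : Finset (Z W)) : ∃ (N : ℕ) (A : Finset W), ∀ z ∈ F, ∀ p ∈ z.support,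
    p.1 < N ∧ ∀ w ∈ p.2, w ∈ A := by
  classical
  refine ⟨(F.sup fun z => z.support.sup fun p => p.1) + 1,
    F.biUnion fun z => z.support.biUnion fun p => p.2.toFinset, fun z hz p hp => ⟨?_, ?_⟩⟩
  · refine Nat.lt_succ_of_le (le_trans ?_ (Finset.le_sup (f := fun z : Z W =>
      z.support.sup fun p => p.1) hz))
    exact Finset.le_sup (f := fun p : ℕ × List W => p.1) hp
  · intro w hw
    simp only [Finset.mem_biUnion, List.mem_toFinset]
    exact ⟨z, hz, p, hp, hw⟩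

lemma gm_le (H : LocalGroup (Z W)) (P : LocalMonoid W)
    (hP : ∀ f ∈ P.1, ∀ i j (h : i ≠ j), e i j f h ∈ H.1) : gm P ≤ H.1 := by
  classical
  intro T hT
  apply H.2
  intro F
  obtain ⟨N, A, hNA⟩ := bounds (F ∪ F.image T)
  have hz : ∀ z ∈ F, ∀ p ∈ z.support, p.1 < N ∧ ∀ w ∈ p.2, w ∈ A := fun z hz =>
    hNA z (Finset.mem_union_left _ hz)
  have hTz : ∀ z ∈ F, ∀ p ∈ (T z).support, p.1 < N ∧ ∀ w ∈ p.2, w ∈ A := fun z hz =>
    hNA _ (Finset.mem_union_right _ (Finset.mem_image_of_mem _ hz))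
  let D : Set ℕ := {i | i < N}
  let σ : ℕ → ℕ := fun i => N + i
  have hσ : Function.Injective σ := fun i j h => Nat.add_left_cancel h
  have hσD : ∀ i, σ i ∉ D := fun i h => absurd h (by simp [D, σ])
  have hσD' : ∀ i, σ i ∈ Dᶜ := hσD
  obtain ⟨L1, hL1, h1⟩ := approx H P hP D id σ Function.injective_id N (fun j hj => hj) hT.1 A
  obtain ⟨L2, hL2, h2⟩ := approx H P hP Dᶜ σ id hσ N (fun j _ => hσD' j) hT.2 A
  obtain ⟨L3, hL3, h3⟩ := approx H P hP Dᶜ σ id hσ N (fun j _ => hσD' j) (Nice.one P) A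
  obtain ⟨L4, hL4, h4⟩ := approx H P hP D id σ Function.injective_id N (fun j hj => hj)
    (Nice.one P) A
  obtain ⟨a1, -, g1, hg1, b1⟩ := hL1
  obtain ⟨a2, -, g2, hg2, b2⟩ := hL2
  obtain ⟨a3, -, g3, hg3, b3⟩ := hL3
  obtain ⟨a4, -, g4, hg4, b4⟩ := hL4
  refine ⟨g4 * g3 * g2 * g1, H.1.mul_mem (H.1.mul_mem (H.1.mul_mem hg4 hg3) hg2) hg1,
    fun z hzF => ?_⟩
  have hzD : ∀ p ∈ z.support, p.1 ∈ D := fun p hp => (hz z hzF p hp).1
  have hTzD : ∀ p ∈ (T z).support, p.1 ∈ D := fun p hp => (hTz z hzF p hp).1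
  have c1 : L1 z = ρ σ (T z) := by
    have := h1 z (hz z hzF)
    rwa [ρ_id, pr_ρ_self hσD'] at this
  have c2 : L2 (ρ σ (T z)) = z := by
    have := h2 (T z) (hTz z hzF)
    have h5 : (T⁻¹ : Perm (Z W)) (T z) = z := T.symm_apply_apply z
    rw [ρ_id, compl_compl, h5, pr_self hzD] at this
    exact this
  have c2' : L2 z = 0 := by
    rw [← a2, pr_zero (D := Dᶜ) fun p hp h => h (hzD p hp), map_zero]
  have c3 : L3 (ρ σ (T z)) = T z := by
    have := h3 (T z) (hTz z hzF)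
    rwa [ρ_id, compl_compl, pr_self hTzD] at this
  have c4 : L4 (T z) = ρ σ (T z) := by
    have := h4 (T z) (hTz z hzF)
    rwa [ρ_id, pr_ρ_self hσD'] at this
  have c4' : L4 (ρ σ (T z)) = 0 := by
    rw [← a4, pr_ρ_zero hσD, map_zero]
  rw [Perm.mul_apply, Perm.mul_apply, Perm.mul_apply, b1, c1, b2, map_add L2, c2', c2, zero_add,
    show z + ρ σ (T z) + z = ρ σ (T z) by rw [add_comm, ← add_assoc, two, zero_add], b3, c3, b4,
    map_add L4, c4', c4, zero_add, add_comm, ← add_assoc, two, zero_add]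

/-- intersection of a family of local monoids -/
def mSInf (S : Set (LocalMonoid W)) : LocalMonoid W :=
  ⟨⨅ M ∈ S, M.1, fun f h => by
    rw [Submonoid.mem_iInf]
    intro M
    rw [Submonoid.mem_iInf]
    intro hM
    apply M.2
    intro A
    obtain ⟨g, hg, hA⟩ := h A
    rw [Submonoid.mem_iInf] at hg
    exact ⟨g, (Submonoid.mem_iInf.1 (hg M)) hM, hA⟩⟩

lemma mSInf_glb (S : Set (LocalMonoid W)) : IsGLB S (mSInf S) := by
  constructor
  · intro M hM f hf
    exact Submonoid.mem_iInf.1 (Submonoid.mem_iInf.1 hf M) hM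
  · intro K hK f hf
    exact Submonoid.mem_iInf.2 fun M => Submonoid.mem_iInf.2 fun hM => hK hM hf

lemma monoid_lub (S : Set (LocalMonoid W)) : ∃ E, IsLUB S E :=
  ⟨mSInf (upperBounds S), ⟨fun M hM => (mSInf_glb (upperBounds S)).2 fun _ hK => hK hM,
    fun _ hK => (mSInf_glb (upperBounds S)).1 hK⟩⟩

theorem gm_embeds (W : Type*) [Countable W] [Nonempty W] :
    IsLatticeEmbedding (gmLocal (W := W)) := by
  refine ⟨fun M N h => ?_, fun M N => ⟨mInf M N, mInf_glb M N, ?_, ?_⟩, fun M N => ?_⟩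
  · have h' : gm M = gm N := congrArg Subtype.val h
    exact le_antisymm (gm_reflect h'.le) (gm_reflect h'.ge)
  · rintro K (rfl | rfl)
    · exact gm_mono ((mInf_glb M N).1 (by simp))
    · exact gm_mono ((mInf_glb M N).1 (by simp))
  · intro K hK g hg
    have h1 : g ∈ gm M := hK (show gmLocal M ∈ {gmLocal M, gmLocal N} by simp) hg
    have h2 : g ∈ gm N := hK (show gmLocal N ∈ {gmLocal M, gmLocal N} by simp) hg
    exact ⟨h1.1.inf h2.1, h1.2.inf h2.2⟩
  · obtain ⟨P, hP⟩ := monoid_lub {M, N}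
    refine ⟨P, hP, ?_, ?_⟩
    · rintro K (rfl | rfl)
      · exact gm_mono (hP.1 (by simp))
      · exact gm_mono (hP.1 (by simp))
    · intro H hH
      have hM : gm M ≤ H.1 := hH (show gmLocal M ∈ {gmLocal M, gmLocal N} by simp)
      have hN : gm N ≤ H.1 := hH (show gmLocal N ∈ {gmLocal M, gmLocal N} by simp)
      have hle : P ≤ mH H (fun i j h => hM (e_mem h M.1.one_mem)) := by
        apply hP.2
        rintro K (rfl | rfl)
        · exact fun f hf i j h => hM (e_mem h hf)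
        · exact fun f hf i j h => hN (e_mem h hf)
      exact gm_le H P fun f hf => hle hf

end Pool.Agent.Q111.MLoc
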