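import Pool.Agent.Q111.MLoc.Int

/-! # `M_{2^ω}` embeds into the lattices of local monoids and local groups -/

namespace Pool.Agent.Q111.MLoc

open Equiv

/-- the properties of the family -/
structure Fam {X : Type*} (F : (ℕ → Bool) → Perm X) : Prop where
  orbit : ∀ x, ∃ z, Function.Injective fun k : ℤ => (F x ^ k) z
  inter : ∀ x y, x ≠ y → ∀ m n : ℤ, F x ^ m = F y ^ n → m = 0
  join : ∀ x y, x ≠ y → ∀ H : Subgroup (Perm X), Cl H → F x ∈ H → F y ∈ H → H = ⊤

lemma fam_int : Fam f where
  orbit x := ⟨0, f_orbit x 0⟩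
  inter _ _ h _ _ h' := f_inter h h'
  join _ _ h H hc hx hy := join_top h H hc hx hy

lemma fam_transport {X : Type*} (e : ℤ ≃ X) : Fam fun x => e.permCongrHom (f x) where
  orbit x := by
    refine ⟨e 0, fun k l h => f_orbit x 0 ?_⟩
    simp only [← map_zpow] at h
    simpa [Equiv.permCongrHom, Equiv.permCongr_apply] using h
  inter x y h m n h' := by
    rw [← map_zpow, ← map_zpow] at h'
    exact f_inter h (e.permCongrHom.injective h')
  join x y h H hc hx hy := by
    have h1 := join_top h (H.comap e.permCongrHom.toMonoidHom) (by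
      intro g hg
      apply hc
      intro A
      classical
      obtain ⟨g', hg', hA⟩ := hg (A.image e.symm)
      refine ⟨e.permCongrHom g', hg', fun a ha => ?_⟩
      have := hA _ (Finset.mem_image_of_mem _ ha)
      simpa [Equiv.permCongrHom, Equiv.permCongr_apply] using this) hx hy
    rw [eq_top_iff]
    intro g _
    have : e.permCongrHom.symm g ∈ H.comap e.permCongrHom.toMonoidHom := by rw [h1]; trivial
    have h2 : e.permCongrHom (e.permCongrHom.symm g) ∈ H := this
    rwa [MulEquiv.apply_symm_apply] at h2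

section

variable {X : Type*} {F : (ℕ → Bool) → Perm X}

lemma zpow_of_approx (hF : Fam F) (x : ℕ → Bool) (g : X → X)
    (h : ∀ A : Finset X, ∃ k : ℤ, ∀ a ∈ A, (F x ^ k) a = g a) : ∃ k : ℤ, ⇑(F x ^ k) = g := by
  classical
  obtain ⟨z, hz⟩ := hF.orbit x
  obtain ⟨k, hk⟩ := h {z}
  refine ⟨k, funext fun a => ?_⟩
  obtain ⟨l, hl⟩ := h {z, a}
  have h1 := hk z (by simp)
  have h2 := hl z (by simp)
  have h3 : k = l := hz (h1.trans h2.symm)
  rw [h3]
  exact hl a (by simp)

lemma F_ne_one (hF : Fam F) (x : ℕ → Bool) : F x ≠ 1 := by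
  intro h
  obtain ⟨z, hz⟩ := hF.orbit x
  have : (0 : ℤ) = 1 := hz (by simp [h])
  omega

/-- the other index -/
lemma exists_ne' (x : ℕ → Bool) : ∃ y, x ≠ y := ⟨fun n => !(x n), fun h => by
  have := congrFun h 0
  simp at this⟩

theorem group_main (hF : Fam F) : EmbedsM (LocalGroup X) := by
  let b : LocalGroup X := ⟨⊥, fun g hg => by
    rw [Subgroup.mem_bot]
    refine Equiv.ext fun a => ?_
    obtain ⟨g', hg', h⟩ := hg {a}
    rw [Subgroup.mem_bot] at hg'
    have := h a (by simp)
    rw [← this, hg']⟩
  let t : LocalGroup X := ⟨⊤, fun g _ => trivial⟩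
  let a : (ℕ → Bool) → LocalGroup X := fun x => ⟨Subgroup.zpowers (F x), fun g hg => by
    obtain ⟨k, hk⟩ := zpow_of_approx hF x g (fun A => by
      obtain ⟨g', hg', h⟩ := hg A
      obtain ⟨k, rfl⟩ := Subgroup.mem_zpowers_iff.1 hg'
      exact ⟨k, h⟩)
    exact Subgroup.mem_zpowers_iff.2 ⟨k, Equiv.ext fun z => congrFun hk z⟩⟩
  have hnot : ∀ x y, x ≠ y → F x ∉ Subgroup.zpowers (F y) := by
    intro x y h hmem
    obtain ⟨n, hn⟩ := Subgroup.mem_zpowers_iff.1 hmem
    have := hF.inter x y h 1 n (by rw [zpow_one, hn])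
    omega
  refine ⟨b, t, a, ?_, ?_, ?_⟩
  · intro x y h
    by_contra hne
    have h1 : Subgroup.zpowers (F x) = Subgroup.zpowers (F y) := congrArg Subtype.val h
    exact hnot x y hne (h1 ▸ Subgroup.mem_zpowers _)
  · intro x
    constructor
    · refine lt_of_le_of_ne (bot_le (a := Subgroup.zpowers (F x))) fun h => ?_
      have h1 : (⊥ : Subgroup (Perm X)) = Subgroup.zpowers (F x) := congrArg Subtype.val h
      have h2 : F x ∈ (⊥ : Subgroup (Perm X)) := h1 ▸ Subgroup.mem_zpowers _
      exact F_ne_one hF x (Subgroup.mem_bot.1 h2)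
    · refine lt_of_le_of_ne (le_top (a := Subgroup.zpowers (F x))) fun h => ?_
      have h1 : Subgroup.zpowers (F x) = (⊤ : Subgroup (Perm X)) := congrArg Subtype.val h
      obtain ⟨y, hy⟩ := exists_ne' x
      exact hnot y x (Ne.symm hy) (h1 ▸ Subgroup.mem_top _)
  · intro x y hxy
    constructor
    · constructor
      · intro c hc
        rcases hc with rfl | hc
        · exact bot_le (a := Subgroup.zpowers (F x))
        · rw [Set.mem_singleton_iff.1 hc]
          exact bot_le (a := Subgroup.zpowers (F y))
      · intro c hc g hg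
        have h1 : g ∈ Subgroup.zpowers (F x) := hc (Set.mem_insert _ _) hg
        have h2 : g ∈ Subgroup.zpowers (F y) := hc (Set.mem_insert_of_mem _ rfl) hg
        obtain ⟨m, hm⟩ := Subgroup.mem_zpowers_iff.1 h1
        obtain ⟨n, hn⟩ := Subgroup.mem_zpowers_iff.1 h2
        have h3 := hF.inter x y hxy m n (hm.trans hn.symm)
        rw [h3, zpow_zero] at hm
        exact Subgroup.mem_bot.2 hm.symm
    · constructor
      · intro c _ g _
        trivial
      · intro c hc
        have h1 : F x ∈ c.1 := hc (Set.mem_insert (a x) {a y}) (Subgroup.mem_zpowers _)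
        have h2 : F y ∈ c.1 := hc (Set.mem_insert_of_mem (a x) rfl) (Subgroup.mem_zpowers _)
        have h3 := hF.join x y hxy c.1 c.2 h1 h2
        intro g _
        rw [h3]; trivial

/-- a permutation as a map -/
def toEnd (g : Perm X) : Function.End X := ⇑g

/-- the closed monoid of the powers of `F x` -/
def powers (F : (ℕ → Bool) → Perm X) (x : ℕ → Bool) : Submonoid (Function.End X) where
  carrier := {g | ∃ k : ℤ, ⇑(F x ^ k) = g}
  mul_mem' := by
    rintro _ _ ⟨k, rfl⟩ ⟨l, rfl⟩
    exact ⟨k + l, by rw [zpow_add]; rfl⟩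
  one_mem' := ⟨0, by rw [zpow_zero]; rfl⟩

/-- the monoid of all injections -/
def inj (X : Type*) : Submonoid (Function.End X) where
  carrier := {g | Function.Injective g}
  mul_mem' := fun hg hh => Function.Injective.comp hg hh
  one_mem' := Function.injective_id

theorem monoid_main (hF : Fam F) : EmbedsM (LocalMonoid X) := by
  classical
  let b : LocalMonoid X := ⟨⊥, fun g hg => by
    rw [Submonoid.mem_bot]
    refine funext fun a => ?_
    obtain ⟨g', hg', h⟩ := hg {a}
    rw [Submonoid.mem_bot] at hg'
    have := h a (by simp)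
    rw [← this, hg']⟩
  let t : LocalMonoid X := ⟨inj X, fun g hg => by
    intro u v huv
    obtain ⟨g', hg', h⟩ := hg {u, v}
    apply hg'
    rw [h u (by simp), h v (by simp), huv]⟩
  let a : (ℕ → Bool) → LocalMonoid X := fun x => ⟨powers F x, fun g hg =>
    zpow_of_approx hF x g (fun A => by
      obtain ⟨g', ⟨k, rfl⟩, h⟩ := hg A
      exact ⟨k, h⟩)⟩
  have hself : ∀ x, toEnd (F x) ∈ powers F x := fun x => ⟨1, by rw [zpow_one]; rfl⟩
  have hnot : ∀ x y, x ≠ y → toEnd (F x) ∉ powers F y := by
    rintro x y h ⟨n, hn⟩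
    have := hF.inter x y h 1 n (by rw [zpow_one]; exact (Equiv.ext fun z => congrFun hn z).symm)
    omega
  refine ⟨b, t, a, ?_, ?_, ?_⟩
  · intro x y h
    by_contra hne
    have h1 : powers F x = powers F y := congrArg Subtype.val h
    exact hnot x y hne (h1 ▸ hself x)
  · intro x
    constructor
    · refine lt_of_le_of_ne (bot_le (a := powers F x)) fun h => ?_
      have h1 : (⊥ : Submonoid (Function.End X)) = powers F x := congrArg Subtype.val h
      have h2 : toEnd (F x) ∈ (⊥ : Submonoid (Function.End X)) := h1 ▸ hself x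
      have h3 : toEnd (F x) = 1 := (Submonoid.mem_bot (M := Function.End X)).1 h2
      exact F_ne_one hF x (Equiv.ext fun z => congrFun h3 z)
    · have hle : powers F x ≤ inj X := by
        rintro _ ⟨k, rfl⟩
        exact (F x ^ k).injective
      refine lt_of_le_of_ne hle fun h => ?_
      have h1 : powers F x = inj X := congrArg Subtype.val h
      obtain ⟨y, hy⟩ := exists_ne' x
      exact hnot y x (Ne.symm hy) (h1 ▸ (F y).injective)
  · intro x y hxy
    constructor
    · constructor
      · intro c hc
        rcases hc with rfl | hc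
        · exact bot_le (a := powers F x)
        · rw [Set.mem_singleton_iff.1 hc]
          exact bot_le (a := powers F y)
      · intro c hc g hg
        obtain ⟨m, hm⟩ : g ∈ powers F x := hc (Set.mem_insert _ _) hg
        obtain ⟨n, hn⟩ : g ∈ powers F y := hc (Set.mem_insert_of_mem _ rfl) hg
        have h3 := hF.inter x y hxy m n (Equiv.ext fun z => by
          rw [hm, hn])
        rw [h3, zpow_zero] at hm
        exact Submonoid.mem_bot.2 hm.symm
    · constructor
      · intro c hc
        rcases hc with rfl | hc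
        · rintro _ ⟨k, rfl⟩
          exact (F x ^ k).injective
        · rw [Set.mem_singleton_iff.1 hc]
          rintro _ ⟨k, rfl⟩
          exact (F y ^ k).injective
      · intro c hc
        -- the group of units of `c`
        let H : Subgroup (Perm X) :=
          { carrier := {g | toEnd g ∈ c.1 ∧ toEnd g⁻¹ ∈ c.1}
            mul_mem' := by
              rintro g h ⟨hg, hg'⟩ ⟨hh, hh'⟩
              have h1 : toEnd g * toEnd h ∈ c.1 := c.1.mul_mem hg hh
              have h2 : toEnd h⁻¹ * toEnd g⁻¹ ∈ c.1 :=
                c.1.mul_mem hh' hg'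
              refine ⟨h1, ?_⟩
              rw [mul_inv_rev]
              exact h2
            one_mem' := ⟨c.1.one_mem, by rw [inv_one]; exact c.1.one_mem⟩
            inv_mem' := by
              rintro g ⟨hg, hg'⟩
              exact ⟨hg', by rw [inv_inv]; exact hg⟩ }
        have hcl : Cl H := by
          intro g hg
          constructor
          · apply c.2
            intro A
            obtain ⟨g', hg', h⟩ := hg A
            exact ⟨_, hg'.1, h⟩
          · apply c.2
            intro A
            obtain ⟨g', hg', h⟩ := hg (A.image ⇑g⁻¹)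
            refine ⟨_, hg'.2, fun u hu => ?_⟩
            have h1 := h _ (Finset.mem_image_of_mem _ hu)
            have h2 : g'⁻¹ u = g⁻¹ u := by
              rw [Perm.inv_eq_iff_eq, h1]
              simp
            exact h2
        have hmem : ∀ z, powers F z ≤ c.1 → F z ∈ H := fun z hz =>
          ⟨hz (hself z), hz ⟨-1, by rw [zpow_neg_one]; rfl⟩⟩
        have h1 : F x ∈ H := hmem x (hc (Set.mem_insert (a x) {a y}))
        have h2 : F y ∈ H := hmem y (hc (Set.mem_insert_of_mem (a x) rfl))
        have h3 := hF.join x y hxy H hcl h1 h2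
        intro g hg
        apply c.2
        intro A
        obtain ⟨g', hg', h⟩ := approx H (fun a b => by rw [h3]; trivial) hg A
        exact ⟨_, hg'.1, h⟩

end

theorem main (X : Type*) [Countable X] [Infinite X] :
    EmbedsM (LocalMonoid X) ∧ EmbedsM (LocalGroup X) := by
  obtain ⟨e⟩ : Nonempty (ℤ ≃ X) := nonempty_equiv_of_countable
  exact ⟨monoid_main (fam_transport e), group_main (fam_transport e)⟩

end Pool.Agent.Q111.MLoc
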