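import Pool.Agent.Q111.MLoc.Lin2

/-! # Transport along bijections -/

namespace Pool.Agent.Q111.MLoc

open Equiv

variable {L K K' : Type*} [PartialOrder L] [PartialOrder K] [PartialOrder K']

lemma IsLatticeEmbedding.comp {φ : L → K} {ψ : K → K'} (hψ : IsLatticeEmbedding ψ)
    (hφ : IsLatticeEmbedding φ) : IsLatticeEmbedding fun a => ψ (φ a) := by
  refine ⟨fun a b h => hφ.1 (hψ.1 h), fun a b => ?_, fun a b => ?_⟩
  · obtain ⟨m, h1, h2⟩ := hφ.2.1 a b
    obtain ⟨m', h3, h4⟩ := hψ.2.1 (φ a) (φ b)
    rw [h3.unique h2] at h4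
    exact ⟨m, h1, h4⟩
  · obtain ⟨m, h1, h2⟩ := hφ.2.2 a b
    obtain ⟨m', h3, h4⟩ := hψ.2.2 (φ a) (φ b)
    rw [h3.unique h2] at h4
    exact ⟨m, h1, h4⟩

lemma IsLatticeEmbedding.iso {φ : L → K} (hφ : IsLatticeEmbedding φ) (o : K ≃o K') :
    IsLatticeEmbedding fun a => o (φ a) := by
  refine ⟨fun a b h => hφ.1 (o.injective h), fun a b => ?_, fun a b => ?_⟩
  · obtain ⟨m, h1, h2, h3⟩ := hφ.2.1 a b
    refine ⟨m, h1, ?_, ?_⟩
    · rintro k (rfl | rfl)
      · exact o.monotone (h2 (by simp))
      · exact o.monotone (h2 (by simp))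
    · intro k hk
      have h4 : o.symm k ≤ φ m := by
        apply h3
        rintro l (rfl | rfl)
        · rw [o.symm_apply_le]
          exact hk (by simp)
        · rw [o.symm_apply_le]
          exact hk (by simp)
      rwa [o.symm_apply_le] at h4
  · obtain ⟨m, h1, h2, h3⟩ := hφ.2.2 a b
    refine ⟨m, h1, ?_, ?_⟩
    · rintro k (rfl | rfl)
      · exact o.monotone (h2 (by simp))
      · exact o.monotone (h2 (by simp))
    · intro k hk
      have h4 : φ m ≤ o.symm k := by
        apply h3
        rintro l (rfl | rfl)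
        · rw [o.le_symm_apply]
          exact hk (by simp)
        · rw [o.le_symm_apply]
          exact hk (by simp)
      rwa [o.le_symm_apply] at h4

variable {A B : Type*}

/-- conjugation -/
def cj (ε : A ≃ B) (f : Function.End B) : Function.End A := fun a => ε.symm (f (ε a))

lemma cj_mul (ε : A ≃ B) (f g : Function.End B) : cj ε (f * g) = cj ε f * cj ε g := by
  funext a
  change ε.symm (f (g (ε a))) = ε.symm (f (ε (ε.symm (g (ε a)))))
  rw [ε.apply_symm_apply]

lemma cj_one (ε : A ≃ B) : cj ε 1 = 1 := by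
  funext a
  exact ε.symm_apply_apply a

lemma cj_cj (ε : A ≃ B) (f : Function.End A) : cj ε (cj ε.symm f) = f := by
  funext a
  change ε.symm (ε.symm.symm (f (ε.symm (ε a)))) = f a
  rw [ε.symm_apply_apply, ε.symm_symm, ε.symm_apply_apply]

/-- transport of local monoids -/
def tm (ε : A ≃ B) (M : LocalMonoid A) : LocalMonoid B :=
  ⟨{ carrier := {f | cj ε f ∈ M.1}
     mul_mem' := by
      intro f g hf hg
      change cj ε (f * g) ∈ M.1
      rw [cj_mul]
      exact M.1.mul_mem hf hg
     one_mem' := by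
      change cj ε 1 ∈ M.1
      rw [cj_one]
      exact M.1.one_mem }, by
    classical
    intro f hf
    apply M.2
    intro F
    obtain ⟨g, hg, hF⟩ := hf (F.image ε)
    exact ⟨_, hg, fun a ha => congrArg ε.symm (hF _ (Finset.mem_image_of_mem _ ha))⟩⟩

lemma mem_tm {ε : A ≃ B} {M : LocalMonoid A} {f : Function.End B} :
    f ∈ (tm ε M).1 ↔ cj ε f ∈ M.1 := Iff.rfl

lemma tm_tm (ε : A ≃ B) (M : LocalMonoid A) : tm ε.symm (tm ε M) = M := by
  apply Subtype.ext
  ext f
  rw [mem_tm, mem_tm, cj_cj]

/-- transport of local monoids is an order isomorphism -/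
def tmIso (ε : A ≃ B) : LocalMonoid A ≃o LocalMonoid B where
  toFun := tm ε
  invFun := tm ε.symm
  left_inv := tm_tm ε
  right_inv := fun M => by
    have := tm_tm ε.symm M
    rwa [ε.symm_symm] at this
  map_rel_iff' := by
    intro M N
    constructor
    · intro h f hf
      have h1 : f ∈ (tm ε.symm (tm ε M)).1 := by rw [tm_tm]; exact hf
      have h2 : f ∈ (tm ε.symm (tm ε N)).1 := by
        rw [mem_tm] at h1 ⊢
        exact h h1
      rwa [tm_tm] at h2
    · intro h f hf
      exact h hf

/-- transport of local groups -/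
def tg (ε : A ≃ B) (G : LocalGroup A) : LocalGroup B :=
  ⟨G.1.comap (Equiv.permCongrHom ε.symm).toMonoidHom, by
    classical
    intro f hf
    apply G.2
    intro F
    obtain ⟨g, hg, hF⟩ := hf (F.image ε)
    refine ⟨_, hg, fun a ha => ?_⟩
    exact congrArg ε.symm (hF _ (Finset.mem_image_of_mem _ ha))⟩

lemma mem_tg {ε : A ≃ B} {G : LocalGroup A} {f : Perm B} :
    f ∈ (tg ε G).1 ↔ ε.symm.permCongr f ∈ G.1 := Iff.rfl

lemma tg_tg (ε : A ≃ B) (G : LocalGroup A) : tg ε.symm (tg ε G) = G := by
  apply Subtype.ext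
  ext f
  rw [mem_tg, mem_tg]
  have : ε.symm.permCongr (ε.symm.symm.permCongr f) = f := by
    ext a
    simp
  rw [this]

/-- transport of local groups is an order isomorphism -/
def tgIso (ε : A ≃ B) : LocalGroup A ≃o LocalGroup B where
  toFun := tg ε
  invFun := tg ε.symm
  left_inv := tg_tg ε
  right_inv := fun M => by
    have := tg_tg ε.symm M
    rwa [ε.symm_symm] at this
  map_rel_iff' := by
    intro M N
    constructor
    · intro h f hf
      have h1 : f ∈ (tg ε.symm (tg ε M)).1 := by rw [tg_tg]; exact hf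
      have h2 : f ∈ (tg ε.symm (tg ε N)).1 := by
        rw [mem_tg] at h1 ⊢
        exact h h1
      rwa [tg_tg] at h2
    · intro h f hf
      exact h hf

/-- two countably infinite sets are in bijection -/
lemma nonempty_equiv (A B : Type*) [Countable A] [Infinite A] [Countable B] [Infinite B] :
    Nonempty (A ≃ B) := by
  obtain ⟨h1⟩ := nonempty_denumerable A
  obtain ⟨h2⟩ := nonempty_denumerable B
  exact ⟨Denumerable.equiv₂ A B⟩

theorem main (X : Type*) [Countable X] [Infinite X] :
    (∃ φ : LocalClone X → LocalMonoid X, IsLatticeEmbedding φ) ∧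
      ∃ ψ : LocalClone X → LocalGroup X, IsLatticeEmbedding ψ := by
  have : Infinite (Y X) := Infinite.of_injective (fun x : X => (⟨0, fun _ => x⟩ : Y X)) (by
    intro x y h
    have h1 : (fun _ : Fin 1 => x) = fun _ => y := by simpa using h
    exact congrFun h1 0)
  have : Infinite (Z X) := Infinite.of_injective (fun n : ℕ => (δ n [] : Z X)) (by
    intro m n h
    have h1 := Finsupp.single_left_injective (M := ZMod 2) one_ne_zero h
    exact congrArg Prod.fst h1)
  have : Countable (Z X) := by
    have : Function.Injective fun z : Z X => z.support := by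
      intro z z' h
      have h1 : z.support = z'.support := h
      ext p
      have h2 : p ∈ z.support ↔ p ∈ z'.support := by rw [h1]
      rw [Finsupp.mem_support_iff, Finsupp.mem_support_iff] at h2
      revert h2
      generalize z p = s
      generalize z' p = t
      revert s t
      decide
    exact this.countable
  obtain ⟨ε⟩ := nonempty_equiv (Y X) X
  obtain ⟨ε'⟩ := nonempty_equiv (Z X) X
  have h1 : IsLatticeEmbedding fun C : LocalClone X => tmIso ε (cmLocal C) :=
    (clone_embeds X).iso (tmIso ε)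
  exact ⟨⟨_, h1⟩, ⟨_, ((gm_embeds X).comp h1).iso (tgIso ε')⟩⟩

end Pool.Agent.Q111.MLoc
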